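import Pool.Agent.W620.FL.Dichotomy
import Pool.Agent.TH60.FP.Strip
import Pool.Agent.TH60.FP.Close

/-!
Rays and lines of a flat which are moved along themselves, up to a bounded error, by an element of
the group.
-/

set_option autoImplicit false

universe u v

namespace Pool.Agent.Q30.AP

open Pool.Agent.W620.FL Pool.Agent.TH60.FP Set

section
variable {X : Type u} [MetricSpace X] {G : Type v} [Group G] [MulAction G X]

/-- the ray of `f` from `f a` in the direction `v` is moved along itself by `g`, up to `n` -/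
def Ray (f : ℂ → X) (g : G) (n : ℝ) (a v : ℂ) : Prop :=
  ∀ i : ℕ, dist (g ^ i • f a) (f (a + i * v)) ≤ n

/-- the line of `f` through `f a` in the direction `v` is moved along itself by `g`, up to `n` -/
def Full (f : ℂ → X) (g : G) (n : ℝ) (a v : ℂ) : Prop :=
  ∀ i : ℤ, dist (g ^ i • f a) (f (a + i * v)) ≤ n

theorem aff (e : ℂ ≃ᵢ ℂ) (a v : ℂ) (t : ℝ) : e (a + t * v) = e a + t * (e v - e 0) := by
  rcases isom_form e with ⟨p, b, -, h⟩ | ⟨p, b, -, h⟩
  · simp only [h]; ring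
  · simp only [h, map_add, map_mul, Complex.conj_ofReal, map_zero]; ring

theorem aff_nat (e : ℂ ≃ᵢ ℂ) (a v : ℂ) (i : ℕ) : e (a + i * v) = e a + i * (e v - e 0) := by
  have := aff e a v i
  push_cast at this
  exact this

theorem aff_int (e : ℂ ≃ᵢ ℂ) (a v : ℂ) (i : ℤ) : e (a + i * v) = e a + i * (e v - e 0) := by
  have := aff e a v i
  push_cast at this
  exact this

theorem lin_norm (e : ℂ ≃ᵢ ℂ) (v : ℂ) : ‖e v - e 0‖ = ‖v‖ := by
  rw [← dist_eq_norm, e.isometry.dist_eq, dist_zero_right]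

theorem eq_of_growth {α β C : ℝ} (h : ∀ i : ℕ, |i * α - i * β| ≤ C) : α = β := by
  by_contra hne
  have h1 : 0 < |α - β| := abs_pos.2 (sub_ne_zero.2 hne)
  obtain ⟨i, hi⟩ := exists_nat_gt (C / |α - β|)
  have h2 := h i
  rw [← mul_sub, abs_mul, Nat.abs_cast] at h2
  rw [div_lt_iff₀ h1] at hi
  linarith

theorem zero_of_growth {z : ℂ} {C : ℝ} (h : ∀ i : ℕ, ‖(i : ℂ) * z‖ ≤ C) : z = 0 := by
  have : ‖z‖ = 0 := by
    refine eq_of_growth (C := C) fun i => ?_
    have := h i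
    rw [norm_mul, Complex.norm_natCast] at this
    rw [mul_zero, sub_zero, abs_of_nonneg (by positivity)]
    exact this
  exact norm_eq_zero.1 this

theorem Full.ray {f : ℂ → X} {g : G} {n : ℝ} {a v : ℂ} (h : Full f g n a v) : Ray f g n a v := by
  intro i
  have := h i
  rw [zpow_natCast, Int.cast_natCast] at this
  exact this

theorem Ray.nonneg {f : ℂ → X} {g : G} {n : ℝ} {a v : ℂ} (h : Ray f g n a v) : 0 ≤ n :=
  dist_nonneg.trans (h 0)

theorem Ray.mono {f : ℂ → X} {g : G} {n m : ℝ} {a v : ℂ} (h : Ray f g n a v) (hnm : n ≤ m) :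
    Ray f g m a v := fun i => (h i).trans hnm

variable [IsIsometricSMul G X]

theorem Ray.move {f : ℂ → X} (hf : Isometry f) {g : G} {n : ℝ} {a v : ℂ} (h : Ray f g n a v)
    (b : ℂ) : Ray f g (n + 2 * ‖b - a‖) b v := by
  intro i
  have h1 : dist (g ^ i • f b) (g ^ i • f a) = ‖b - a‖ := by
    rw [dist_smul, hf.dist_eq, dist_eq_norm]
  have h2 : dist (f (a + i * v)) (f (b + i * v)) = ‖b - a‖ := by
    rw [hf.dist_eq, dist_eq_norm, ← norm_neg]
    congr 1; ring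
  have h3 := dist_triangle4 (g ^ i • f b) (g ^ i • f a) (f (a + i * v)) (f (b + i * v))
  have := h i
  linarith

theorem Full.move {f : ℂ → X} (hf : Isometry f) {g : G} {n : ℝ} {a v : ℂ} (h : Full f g n a v)
    (b : ℂ) : Full f g (n + 2 * ‖b - a‖) b v := by
  intro i
  have h1 : dist (g ^ i • f b) (g ^ i • f a) = ‖b - a‖ := by
    rw [dist_smul, hf.dist_eq, dist_eq_norm]
  have h2 : dist (f (a + i * v)) (f (b + i * v)) = ‖b - a‖ := by
    rw [hf.dist_eq, dist_eq_norm, ← norm_neg]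
    congr 1; ring
  have h3 := dist_triangle4 (g ^ i • f b) (g ^ i • f a) (f (a + i * v)) (f (b + i * v))
  have := h i
  linarith

/-- the direction of a ray in the flat `h • f ∘ e` -/
theorem Ray.back {f : ℂ → X} {g h : G} {e : ℂ ≃ᵢ ℂ} {n : ℝ} {a v : ℂ}
    (h1 : Ray (fun z => h • f (e z)) g n a v) : Ray f (h⁻¹ * g * h) n (e a) (e v - e 0) := by
  intro i
  have h2 := h1 i
  simp only at h2
  rw [aff_nat] at h2
  have h3 : (h⁻¹ * g * h) ^ i = h⁻¹ * g ^ i * h := by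
    have := conj_pow (a := h⁻¹) (b := g) (i := i)
    rw [inv_inv] at this
    exact this
  rw [h3, ← dist_smul h, smul_smul]
  have h4 : (h * (h⁻¹ * g ^ i * h)) • f (e a) = g ^ i • h • f (e a) := by
    rw [smul_smul]; congr 1; group
  rw [h4]
  exact h2

theorem Full.back {f : ℂ → X} {g h : G} {e : ℂ ≃ᵢ ℂ} {n : ℝ} {a v : ℂ}
    (h1 : Full (fun z => h • f (e z)) g n a v) : Full f (h⁻¹ * g * h) n (e a) (e v - e 0) := by
  intro i
  have h2 := h1 i
  simp only at h2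
  rw [aff_int] at h2
  have h3 : (h⁻¹ * g * h) ^ i = h⁻¹ * g ^ i * h := by
    have := conj_zpow (a := h⁻¹) (b := g) (i := i)
    rw [inv_inv] at this
    exact this
  rw [h3, ← dist_smul h, smul_smul]
  have h4 : (h * (h⁻¹ * g ^ i * h)) • f (e a) = g ^ i • h • f (e a) := by
    rw [smul_smul]; congr 1; group
  rw [h4]
  exact h2

theorem Full.fwd {f : ℂ → X} {g h : G} {e : ℂ ≃ᵢ ℂ} {n : ℝ} {a v : ℂ}
    (h1 : Full f (h⁻¹ * g * h) n (e a) (e v - e 0)) : Full (fun z => h • f (e z)) g n a v := by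
  intro i
  have h2 := h1 i
  have h3 : (h⁻¹ * g * h) ^ i = h⁻¹ * g ^ i * h := by
    have := conj_zpow (a := h⁻¹) (b := g) (i := i)
    rw [inv_inv] at this
    exact this
  rw [h3, ← dist_smul h, smul_smul] at h2
  have h4 : (h * (h⁻¹ * g ^ i * h)) • f (e a) = g ^ i • h • f (e a) := by
    rw [smul_smul]; congr 1; group
  rw [h4, ← aff_int] at h2
  exact h2

theorem angle {f f' : ℂ → X} (hf : Isometry f) (hf' : Isometry f') {g h : G}
    {n m n' m' : ℝ} {a b v w a' b' v' w' : ℂ} (h1 : Ray f g n a v) (h2 : Ray f h m b w)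
    (h3 : Ray f' g n' a' v') (h4 : Ray f' h m' b' w') : ‖v - w‖ = ‖v' - w'‖ := by
  refine eq_of_growth (C := ‖a - b‖ + n + m + dist (f a) (f' a') + dist (f b) (f' b') + n' + m' +
    ‖a' - b'‖) fun i => ?_
  have k1 : ∀ (F : ℂ → X) (_ : Isometry F) (p q x y : ℂ),
      |dist (F (p + i * x)) (F (q + i * y)) - i * ‖x - y‖| ≤ ‖p - q‖ := by
    intro F hF p q x y
    rw [hF.dist_eq, dist_eq_norm]
    have e1 : p + i * x - (q + i * y) = i * (x - y) + (p - q) := by ring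
    have e2 : (i : ℝ) * ‖x - y‖ = ‖(i : ℂ) * (x - y)‖ := by
      rw [norm_mul, Complex.norm_natCast]
    rw [e1, e2]
    have := abs_norm_sub_norm_le ((i : ℂ) * (x - y) + (p - q)) ((i : ℂ) * (x - y))
    rw [add_sub_cancel_left] at this
    exact this
  have k2 := abs_le.1 (k1 f hf a b v w)
  have k3 := abs_le.1 (k1 f' hf' a' b' v' w')
  have r1 := h1 i
  have r2 := h2 i
  have r3 := h3 i
  have r4 := h4 i
  have d1 : dist (g ^ i • f a) (g ^ i • f' a') = dist (f a) (f' a') := dist_smul _ _ _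
  have d2 : dist (h ^ i • f b) (h ^ i • f' b') = dist (f b) (f' b') := dist_smul _ _ _
  have t1 := dist_triangle4 (f (a + i * v)) (g ^ i • f a) (h ^ i • f b) (f (b + i * w))
  have t2 := dist_triangle4 (g ^ i • f a) (f (a + i * v)) (f (b + i * w)) (h ^ i • f b)
  have t3 := dist_triangle4 (f' (a' + i * v')) (g ^ i • f' a') (h ^ i • f' b') (f' (b' + i * w'))
  have t4 := dist_triangle4 (g ^ i • f' a') (f' (a' + i * v')) (f' (b' + i * w')) (h ^ i • f' b')
  have t5 := dist_triangle4 (g ^ i • f a) (g ^ i • f' a') (h ^ i • f' b') (h ^ i • f b)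
  have t6 := dist_triangle4 (g ^ i • f' a') (g ^ i • f a) (h ^ i • f b) (h ^ i • f' b')
  rw [dist_comm (f (a + i * v)) (g ^ i • f a)] at t1
  rw [dist_comm (f (b + i * w)) (h ^ i • f b)] at t2
  rw [dist_comm (f' (a' + i * v')) (g ^ i • f' a')] at t3
  rw [dist_comm (f' (b' + i * w')) (h ^ i • f' b')] at t4
  rw [dist_comm (h ^ i • f' b') (h ^ i • f b)] at t5
  rw [dist_comm (g ^ i • f' a') (g ^ i • f a)] at t6
  rw [abs_le]
  constructor <;> linarith [k2.1, k2.2, k3.1, k3.2]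

theorem speed {f f' : ℂ → X} (hf : Isometry f) (hf' : Isometry f') {g : G}
    {n n' : ℝ} {a v a' v' : ℂ} (h1 : Ray f g n a v) (h3 : Ray f' g n' a' v') : ‖v‖ = ‖v'‖ := by
  have h2 : Ray f (1 : G) 0 a 0 := fun i => by simp
  have h4 : Ray f' (1 : G) 0 a' 0 := fun i => by simp
  have := angle hf hf' h1 h2 h3 h4
  simpa using this

/-- two rays of the same flat moved by the same element have the same direction -/
theorem dir_unique {f : ℂ → X} (hf : Isometry f) {g : G} {n n' : ℝ} {a v a' v' : ℂ}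
    (h1 : Ray f g n a v) (h2 : Ray f g n' a' v') : v = v' := by
  have := angle hf hf h1 h1 h1 h2
  rw [sub_self, norm_zero] at this
  exact (sub_eq_zero.1 (norm_eq_zero.1 this.symm))

theorem fin_set [ProperSpace X] [ProperlyDiscontinuousSMul G X] (p q : X) (D : ℝ) :
    {x : G | dist (x • p) q ≤ D}.Finite := by
  refine (ProperlyDiscontinuousSMul.finite_disjoint_inter_image (Γ := G)
    (isCompact_singleton (x := p)) (isCompact_closedBall q D)).subset ?_
  intro g hg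
  exact ⟨g • p, ⟨p, rfl, rfl⟩, hg⟩

theorem coincide {p q : X} {D : ℝ} {P : ℕ}
    (hP : ∀ (x : X) (S : Finset G), (∀ a ∈ S, dist (a • x) x ≤ D + dist p q) → S.card ≤ P)
    {g h : G} (hd : ∀ i : ℕ, dist (g ^ i • p) (h ^ i • q) ≤ D) :
    ∃ k, 1 ≤ k ∧ k ≤ P ∧ g ^ k = h ^ k := by
  classical
  by_contra hno
  push Not at hno
  have hinj : Set.InjOn (fun i : ℕ => (g ^ i)⁻¹ * h ^ i) (Finset.range (P + 1)) := by
    have key : ∀ i j : ℕ, i < j → j ≤ P → (g ^ i)⁻¹ * h ^ i ≠ (g ^ j)⁻¹ * h ^ j := by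
      intro i j hij hj heq
      refine hno (j - i) (by omega) (by omega) ?_
      rw [pow_sub g hij.le, pow_sub h hij.le]
      have h1 : g ^ j * ((g ^ i)⁻¹ * h ^ i) * (h ^ i)⁻¹ =
        g ^ j * ((g ^ j)⁻¹ * h ^ j) * (h ^ i)⁻¹ := by rw [heq]
      have e1 : g ^ j * ((g ^ i)⁻¹ * h ^ i) * (h ^ i)⁻¹ = g ^ j * (g ^ i)⁻¹ := by group
      have e2 : g ^ j * ((g ^ j)⁻¹ * h ^ j) * (h ^ i)⁻¹ = h ^ j * (h ^ i)⁻¹ := by group
      rw [e1, e2] at h1
      exact h1
    intro i hi j hj hij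
    rw [Finset.coe_range, Set.mem_Iio] at hi hj
    rcases lt_trichotomy i j with h1 | h1 | h1
    · exact absurd hij (key i j h1 (by omega))
    · exact h1
    · exact absurd hij.symm (key j i h1 (by omega))
  have hcard := hP q ((Finset.range (P + 1)).image fun i : ℕ => (g ^ i)⁻¹ * h ^ i) (by
    intro a ha
    obtain ⟨i, -, rfl⟩ := Finset.mem_image.1 ha
    have h1 : dist (((g ^ i)⁻¹ * h ^ i) • q) p ≤ D := by
      rw [← dist_smul (g ^ i), smul_smul, mul_inv_cancel_left, dist_comm]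
      exact hd i
    exact (dist_triangle _ p _).trans (add_le_add h1 le_rfl))
  rw [Finset.card_image_of_injOn hinj, Finset.card_range] at hcard
  omega

theorem commute_pow [ProperSpace X] [ProperlyDiscontinuousSMul G X] {y1 y2 : X} {D : ℝ}
    {c1 c2 k : G} (hd : ∀ i : ℕ, dist (c1 • k ^ i • y1) (c2 • k ^ i • y2) ≤ D) :
    ∃ p, 1 ≤ p ∧ Commute (c1⁻¹ * c2) (k ^ p) := by
  have hfin := fin_set (G := G) y2 y1 D
  have hmem : ∀ i : ℕ, (k ^ i)⁻¹ * (c1⁻¹ * c2) * k ^ i ∈ {x : G | dist (x • y2) y1 ≤ D} := by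
    intro i
    show dist (((k ^ i)⁻¹ * (c1⁻¹ * c2) * k ^ i) • y2) y1 ≤ D
    rw [← dist_smul (c1 * k ^ i), smul_smul, dist_comm]
    have e1 : (c1 * k ^ i) • y1 = c1 • k ^ i • y1 := mul_smul _ _ _
    have e2 : (c1 * k ^ i * ((k ^ i)⁻¹ * (c1⁻¹ * c2) * k ^ i)) • y2 = c2 • k ^ i • y2 := by
      rw [smul_smul]; congr 1; group
    rw [e1, e2]
    exact hd i
  have : Finite {x : G | dist (x • y2) y1 ≤ D} := hfin.to_subtype
  obtain ⟨i, j, hij, h⟩ := Finite.exists_ne_map_eq_of_infinite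
    (fun i : ℕ => (⟨_, hmem i⟩ : {x : G | dist (x • y2) y1 ≤ D}))
  rw [Subtype.mk.injEq] at h
  have key : ∀ i j : ℕ, i < j →
      (k ^ i)⁻¹ * (c1⁻¹ * c2) * k ^ i = (k ^ j)⁻¹ * (c1⁻¹ * c2) * k ^ j →
      ∃ p, 1 ≤ p ∧ Commute (c1⁻¹ * c2) (k ^ p) := by
    intro i j hij h
    refine ⟨j - i, by omega, ?_⟩
    rw [pow_sub k hij.le, Commute, SemiconjBy]
    have h1 : k ^ j * ((k ^ i)⁻¹ * (c1⁻¹ * c2) * k ^ i) * (k ^ i)⁻¹ =
      k ^ j * ((k ^ j)⁻¹ * (c1⁻¹ * c2) * k ^ j) * (k ^ i)⁻¹ := by rw [h]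
    have e1 : k ^ j * ((k ^ i)⁻¹ * (c1⁻¹ * c2) * k ^ i) * (k ^ i)⁻¹ =
      k ^ j * (k ^ i)⁻¹ * (c1⁻¹ * c2) := by group
    have e2 : k ^ j * ((k ^ j)⁻¹ * (c1⁻¹ * c2) * k ^ j) * (k ^ i)⁻¹ =
      c1⁻¹ * c2 * (k ^ j * (k ^ i)⁻¹) := by group
    rw [e1, e2] at h1
    exact h1.symm
  rcases lt_or_gt_of_ne hij with h1 | h1
  · exact key i j h1 h
  · exact key j i h1 h.symm

end

end Pool.Agent.Q30.AP
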