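import Pool.Agent.Q30.AP.Ret
import Pool.Agent.TH60.FP.Trans
import Pool.Agent.TH60.FP.Mid
import Pool.Agent.TH60.FP.Dist
import Pool.Agent.TH60.FP.Cen
import Pool.Agent.TH60.FP.Sel
import Mathlib.Topology.Compactness.Compact

/-!
If all flats of an open piece of a minimal family have a ray moved along itself by one element `g`,
then the group contains `ℤ²`.
-/

set_option autoImplicit false

universe u v

namespace Pool.Agent.Q30.AP

open Pool.Agent.W620.FL Pool.Agent.TH60.FP Set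

section
variable {X : Type u} [MetricSpace X] {G : Type v} [Group G] [MulAction G X]

/-- the situation: a closed invariant family of flats with returns to all open pieces, and no `ℤ²` -/
structure Ctx (G : Type v) [Group G] [MulAction G X] (x0 : X) (M : Set (ℂ → X)) : Prop where
  inv : Inv G M
  ret : ∀ O : Set (ℂ → X), IsOpen O → (O ∩ M).Nonempty → ∃ R : ℝ, 0 ≤ R ∧ ∀ f ∈ M, ∀ z0 : ℂ,
    ∃ (h : G) (e : ℂ ≃ᵢ ℂ), (fun z => h • f (e z)) ∈ O ∧ (fun z => h • f (e z)) ∈ M ∧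
      ‖e 0 - z0‖ ≤ R ∧ dist (h • f z0) x0 ≤ R
  few : ∀ D : ℝ, ∃ P : ℕ, ∀ (x : X) (S : Finset G), (∀ a ∈ S, dist (a • x) x ≤ D) → S.card ≤ P
  no : ¬ ∃ φ : Multiplicative (ℤ × ℤ) →* G, Function.Injective φ

/-- every flat of the open piece has a ray at `0` moved along itself by `g` -/
def Has (M : Set (ℂ → X)) (O : Set (ℂ → X)) (g : G) (n : ℝ) : Prop :=
  ∀ f ∈ O, f ∈ M → ∃ v : ℂ, v ≠ 0 ∧ Ray f g n 0 v

/-- infinitely many returns by the same element -/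
theorem Ctx.inf [ProperSpace X] [IsIsometricSMul G X] [ProperlyDiscontinuousSMul G X]
    {x0 : X} {M : Set (ℂ → X)} (C : Ctx G x0 M) {O : Set (ℂ → X)}
    (hO : IsOpen O) (hne : (O ∩ M).Nonempty) {g : G} {f : ℂ → X} (hf : f ∈ M) {N : ℝ}
    {v : ℂ} (hF : Full f g N 0 v) :
    ∃ (k0 : G) (e : ℕ → ℂ ≃ᵢ ℂ) (S : Set ℕ), S.Infinite ∧ ∀ j ∈ S,
      (fun z => k0 • Sh f g v j (e j z)) ∈ O ∧ (fun z => k0 • Sh f g v j (e j z)) ∈ M := by
  obtain ⟨R, hR0, hR⟩ := C.ret O hO hne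
  choose h e h1 h2 h3 h4 using fun j => hR (Sh f g v j) (sh_mem C.inv hf g v j) 0
  have hfin := fin_set (G := G) (f 0) x0 (R + N)
  have hmem : ∀ j, h j ∈ {x : G | dist (x • f 0) x0 ≤ R + N} := by
    intro j
    have s1 := sh_zero hF j
    rw [← dist_smul (h j), dist_comm] at s1
    have s2 := h4 j
    have := dist_triangle (h j • f 0) (h j • Sh f g v j 0) x0
    show dist (h j • f 0) x0 ≤ R + N
    linarith
  have : Finite {x : G | dist (x • f 0) x0 ≤ R + N} := hfin.to_subtype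
  obtain ⟨y, hy⟩ := Finite.exists_infinite_fiber
    (fun j : ℕ => (⟨h j, hmem j⟩ : {x : G | dist (x • f 0) x0 ≤ R + N}))
  refine ⟨y.1, e, _, Set.infinite_coe_iff.1 hy, fun j hj => ?_⟩
  have hj' : h j = y.1 := congrArg Subtype.val (Set.mem_preimage.1 hj : _ = y)
  rw [← hj']
  exact ⟨h1 j, h2 j⟩

theorem pm_of_real {v w : ℂ} (hv : v ≠ 0) (hn : ‖w‖ = ‖v‖) {t : ℝ} (ht : w = t * v) :
    w = v ∨ w = -v := by
  rw [ht, norm_mul, Complex.norm_real, Real.norm_eq_abs] at hn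
  have hv' : ‖v‖ ≠ 0 := norm_ne_zero_iff.2 hv
  have h1 : |t| = 1 := by
    have : |t| * ‖v‖ = 1 * ‖v‖ := by rw [hn, one_mul]
    exact mul_right_cancel₀ hv' this
  rcases eq_or_eq_neg_of_abs_eq h1 with h | h
  · left; rw [ht, h]; simp
  · right; rw [ht, h]; simp

/-- a flat of the open piece with a full line -/
theorem Ctx.full_in_open [ProperSpace X] [IsIsometricSMul G X] [ProperlyDiscontinuousSMul G X]
    {x0 : X} {M : Set (ℂ → X)} (C : Ctx G x0 M) {O : Set (ℂ → X)}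
    (hO : IsOpen O) (hne : (O ∩ M).Nonempty) {g : G} {n : ℝ} (hH : Has M O g n)
    {f : ℂ → X} (hf : f ∈ M) {N : ℝ} {v : ℂ} (hv : v ≠ 0) (hF : Full f g N 0 v) :
    ∃ f' ∈ O, f' ∈ M ∧ ∃ (v' : ℂ) (N' : ℝ), v' ≠ 0 ∧ Full f' g N' 0 v' := by
  obtain ⟨k0, e, S, hS, hret⟩ := C.inf hO hne hf hF
  have hfi : Isometry f := C.inv.isom f hf
  have hsi : ∀ j, Isometry (Sh f g v j) := fun j => C.inv.isom _ (sh_mem C.inv hf g v j)
  have hray : ∀ j ∈ S, ∃ v' : ℂ, v' ≠ 0 ∧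
      Ray (fun z => k0 • Sh f g v j (e j z)) g n 0 v' := fun j hj =>
    hH _ (hret j hj).1 (hret j hj).2
  by_cases hcase : ∃ j ∈ S, ∃ v' : ℂ, v' ≠ 0 ∧ Ray (fun z => k0 • Sh f g v j (e j z)) g n 0 v' ∧
      ∃ t : ℝ, e j v' - e j 0 = t * v
  · obtain ⟨j, hj, v', hv', hr, t, ht⟩ := hcase
    have hr2 := hr.back
    have hn1 : ‖e j v' - e j 0‖ = ‖v‖ := by
      rw [lin_norm]
      exact speed (C.inv.isom _ (hret j hj).2) hfi hr hF.ray
    have hpm := pm_of_real hv hn1 ht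
    obtain ⟨P, hP⟩ := C.few (n + (N + N) + 2 * ‖e j 0 - 0‖)
    obtain ⟨g', hg', hF', p, hp1, -, hpe⟩ := power_rel (hsi j) (sh_full hF j) hr2 hpm hP
    obtain ⟨N', hN'⟩ := full_of_power (hsi j) hF' hp1 hpe (b := e j 0)
    exact ⟨_, (hret j hj).1, (hret j hj).2, v', N', hv', hN'.fwd⟩
  · exfalso
    apply C.no
    refine Z2_of_inf hfi hv hF hS (k := k0⁻¹ * g * k0) (m := n) ?_
    intro j hj
    obtain ⟨v', hv', hr⟩ := hray j hj
    refine ⟨e j 0, e j v' - e j 0, fun t ht => hcase ⟨j, hj, v', hv', hr, t, ht⟩, hr.back⟩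

/-- directions of rays of conjugates of `g` are parallel -/
theorem Ctx.parallel [ProperSpace X] [IsIsometricSMul G X] [ProperlyDiscontinuousSMul G X]
    {x0 : X} {M : Set (ℂ → X)} (C : Ctx G x0 M) {O : Set (ℂ → X)}
    (hO : IsOpen O) {g : G} {n : ℝ} (hH : Has M O g n)
    {f : ℂ → X} (hfO : f ∈ O) (hf : f ∈ M) {N : ℝ} {v : ℂ} (hv : v ≠ 0) (hF : Full f g N 0 v)
    {h : G} {e : ℂ ≃ᵢ ℂ} (hr1 : (fun z => h • f (e z)) ∈ O) (hr2 : (fun z => h • f (e z)) ∈ M)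
    {m : ℝ} {a w : ℂ} (hw : Ray f (h⁻¹ * g * h) m a w) : w = v ∨ w = -v := by
  have hfi : Isometry f := C.inv.isom f hf
  have hspeed : ∀ (F : ℂ → X), F ∈ M → (fun z => h • F (e z)) ∈ O → (fun z => h • F (e z)) ∈ M →
      ∃ w1 : ℂ, Ray F (h⁻¹ * g * h) n (e 0) w1 ∧ ‖w1‖ = ‖v‖ := by
    intro F hF' h1 h2
    obtain ⟨v', hv', hr⟩ := hH _ h1 h2
    refine ⟨e v' - e 0, hr.back, ?_⟩
    rw [lin_norm]
    exact speed (C.inv.isom _ h2) hfi hr hF.ray
  have hnw : ‖w‖ = ‖v‖ := by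
    obtain ⟨w1, hw1, hn1⟩ := hspeed f hf hr1 hr2
    rw [← hn1]
    exact congrArg _ (dir_unique hfi hw hw1)
  by_contra hcon
  have htr : ∀ t : ℝ, w ≠ t * v := fun t ht => hcon (pm_of_real hv hnw ht)
  -- the open piece
  have hcont : Continuous (fun (F : ℂ → X) (z : ℂ) => h • F (e z)) :=
    continuous_pi fun z => (isometry_smul X h).continuous.comp (continuous_apply (e z))
  set O1 : Set (ℂ → X) := O ∩ {F | (fun z => h • F (e z)) ∈ O} with hO1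
  have hO1o : IsOpen O1 := hO.inter (hO.preimage hcont)
  obtain ⟨k0, ε, S, hS, hret⟩ := C.inf hO1o ⟨f, ⟨hfO, hr1⟩, hf⟩ hf hF
  have hsi : ∀ j, Isometry (Sh f g v j) := fun j => C.inv.isom _ (sh_mem C.inv hf g v j)
  have hdat : ∀ j ∈ S, ∃ s t : ℂ, Ray (Sh f g v j) (k0⁻¹ * g * k0) n (ε j 0) s ∧
      Ray (Sh f g v j) (k0⁻¹ * (h⁻¹ * g * h) * k0) n (ε j (e 0)) t ∧ ‖s - t‖ = ‖v - w‖ ∧
      ‖s‖ = ‖v‖ ∧ ‖t‖ = ‖v‖ := by
    intro j hj
    obtain ⟨⟨hj1, hj2⟩, hj3⟩ := hret j hj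
    set F : ℂ → X := fun z => k0 • Sh f g v j (ε j z) with hFd
    have hFi : Isometry F := C.inv.isom _ hj3
    have hj4 : (fun z => h • F (e z)) ∈ M := C.inv.comp _ (C.inv.smul F hj3 h) e
    obtain ⟨v1, hv1, hray1⟩ := hH F hj1 hj3
    obtain ⟨w1, hray2, hnw1⟩ := hspeed F hj3 hj2 hj4
    have hnv1 : ‖v1‖ = ‖v‖ := speed hFi hfi hray1 hF.ray
    have hang : ‖v1 - w1‖ = ‖v - w‖ := angle hFi hfi hray1 hray2 hF.ray hw
    refine ⟨ε j v1 - ε j 0, ε j w1 - ε j 0, hray1.back, hray2.back, ?_, ?_, ?_⟩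
    · rw [sub_sub_sub_cancel_right, ← dist_eq_norm, (ε j).isometry.dist_eq, dist_eq_norm]
      exact hang
    · rw [lin_norm, hnv1]
    · rw [lin_norm, hnw1]
  choose! s t hs1 ht1 hst hs2 ht2 using hdat
  have hnot : ∀ j ∈ S, (∀ r : ℝ, s j ≠ r * v) ∨ (∀ r : ℝ, t j ≠ r * v) := by
    intro j hj
    by_contra hc
    push Not at hc
    obtain ⟨⟨r, hr⟩, ⟨r', hr'⟩⟩ := hc
    have p1 := pm_of_real hv (hs2 j hj) hr
    have p2 := pm_of_real hv (ht2 j hj) hr'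
    have h0 := hst j hj
    have hcases : ‖v - w‖ = 0 ∨ ‖v - w‖ = ‖v‖ + ‖w‖ := by
      rw [← h0]
      rcases p1 with p1 | p1 <;> rcases p2 with p2 | p2 <;> rw [p1, p2]
      · left; simp
      · right
        rw [sub_neg_eq_add, ← two_mul, norm_mul, hnw, ← two_mul]
        simp
      · right
        rw [← neg_add', norm_neg, ← two_mul, norm_mul, hnw, ← two_mul]
        simp
      · left; simp
    rcases hcases with h1 | h1
    · exact hcon (Or.inl (sub_eq_zero.1 (norm_eq_zero.1 h1)).symm)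
    · have h2 : SameRay ℝ v (-w) := by
        rw [sameRay_iff_norm_add, ← sub_eq_add_neg, h1, norm_neg]
      have h3 := h2.norm_smul_eq
      rw [norm_neg, hnw] at h3
      have h4 : (-w) = v := by
        have : (‖v‖ : ℂ) ≠ 0 := by exact_mod_cast norm_ne_zero_iff.2 hv
        have h5 : (‖v‖ : ℂ) * (-w) = (‖v‖ : ℂ) * v := by
          simpa [Complex.real_smul] using h3
        exact mul_left_cancel₀ this h5
      exact hcon (Or.inr (by rw [← h4, neg_neg]))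
  have hunion : S ⊆ {j ∈ S | ∀ r : ℝ, s j ≠ r * v} ∪ {j ∈ S | ∀ r : ℝ, t j ≠ r * v} := by
    intro j hj
    rcases hnot j hj with h1 | h1
    · exact Or.inl ⟨hj, h1⟩
    · exact Or.inr ⟨hj, h1⟩
  rcases Set.infinite_union.1 (hS.mono hunion) with h1 | h1
  · exact C.no (Z2_of_inf hfi hv hF h1 (k := k0⁻¹ * g * k0) (m := n)
      fun j hj => ⟨ε j 0, s j, hj.2, hs1 j hj.1⟩)
  · exact C.no (Z2_of_inf hfi hv hF h1 (k := k0⁻¹ * (h⁻¹ * g * h) * k0) (m := n)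
      fun j hj => ⟨ε j (e 0), t j, hj.2, ht1 j hj.1⟩)

/-- returns preserve full lines, and commensurate `g` -/
theorem Ctx.next [ProperSpace X] [IsIsometricSMul G X] [ProperlyDiscontinuousSMul G X]
    (hX : CN X) {x0 : X} {M : Set (ℂ → X)} (C : Ctx G x0 M) {O : Set (ℂ → X)}
    (hO : IsOpen O) {g : G} {n : ℝ} (hH : Has M O g n)
    {f : ℂ → X} (hfO : f ∈ O) (hf : f ∈ M) {v : ℂ} (hv : v ≠ 0) (hF : Full f g n 0 v)
    {h : G} {e : ℂ ≃ᵢ ℂ} (hr1 : (fun z => h • f (e z)) ∈ O) (hr2 : (fun z => h • f (e z)) ∈ M)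
    {D : ℝ} (he : ‖e 0‖ ≤ D) {P : ℕ}
    (hP : ∀ (x : X) (S : Finset G), (∀ a' ∈ S, dist (a' • x) x ≤ n + n + 2 * D) → S.card ≤ P) :
    ∃ v' : ℂ, v' ≠ 0 ∧ Full (fun z => h • f (e z)) g n 0 v' ∧
      ∃ g' : G, (g' = g ∨ g' = g⁻¹) ∧ ∃ p, 1 ≤ p ∧ p ≤ P ∧ (h⁻¹ * g * h) ^ p = g' ^ p := by
  have hfi : Isometry f := C.inv.isom f hf
  obtain ⟨v', hv', hr⟩ := hH _ hr1 hr2
  have hpar := C.parallel hO hH hfO hf hv hF hr1 hr2 hr.back
  obtain ⟨g', hg', hF', p, hp1, hp2, hpe⟩ := power_rel hfi hF hr.back hpar (P := P) (by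
    intro x S hS
    refine hP x S fun a' ha' => (hS a' ha').trans ?_
    rw [sub_zero]
    linarith)
  obtain ⟨N', hN'⟩ := full_of_power hfi hF' hp1 hpe (b := e 0)
  exact ⟨v', hv', full_of_ray hX (C.inv.isom _ hr2) hv' hr hN'.fwd, g', hg', p, hp1, hp2, hpe⟩

theorem conj_pow' (h g : G) (q : ℕ) : (h⁻¹ * g * h) ^ q = h⁻¹ * g ^ q * h := by
  have := conj_pow (a := h⁻¹) (b := g) (i := q)
  rw [inv_inv] at this
  exact this

theorem Ctx.chain [ProperSpace X] [IsIsometricSMul G X] [ProperlyDiscontinuousSMul G X]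
    (hX : CN X) {x0 : X} {M : Set (ℂ → X)} (C : Ctx G x0 M) {O : Set (ℂ → X)}
    (hO : IsOpen O) {g : G} {n : ℝ} (hH : Has M O g n)
    {f : ℂ → X} (hfO : f ∈ O) (hf : f ∈ M) {v : ℂ} (hv : v ≠ 0) (hF : Full f g n 0 v) :
    ∃ (q : ℕ) (R : ℝ), 1 ≤ q ∧ ∀ (m : ℕ) (z0 : ℂ), ‖z0‖ ≤ m → ∃ (h : G) (e : ℂ ≃ᵢ ℂ),
      (fun z => h • f (e z)) ∈ O ∧ (fun z => h • f (e z)) ∈ M ∧ ‖e 0 - z0‖ ≤ R ∧
      (h⁻¹ * g ^ q * h = g ^ q ∨ h⁻¹ * g ^ q * h = (g ^ q)⁻¹) := by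
  obtain ⟨R, hR0, hR⟩ := C.ret O hO ⟨f, hfO, hf⟩
  obtain ⟨P, hP⟩ := C.few (n + n + 2 * (2 * R + 1))
  refine ⟨P.factorial, R, Nat.factorial_pos P, ?_⟩
  intro m
  induction m with
  | zero =>
    intro z0 hz
    have hz0 : z0 = 0 := by
      rw [Nat.cast_zero] at hz
      exact norm_le_zero_iff.1 hz
    refine ⟨1, 1, ?_, ?_, ?_, Or.inl (by group)⟩
    · simpa using hfO
    · simpa using hf
    · rw [hz0]; simpa using hR0
  | succ m ih =>
    intro z0 hz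
    set z1 : ℂ := ((m / (m + 1) : ℝ) : ℂ) * z0 with hz1
    have hm : (0 : ℝ) < m + 1 := by positivity
    push_cast at hz
    have n1 : ‖z1‖ ≤ m := by
      rw [hz1, norm_mul, Complex.norm_real, Real.norm_eq_abs, abs_of_nonneg (by positivity),
        div_mul_eq_mul_div, div_le_iff₀ hm]
      exact mul_le_mul_of_nonneg_left hz (by positivity)
    have n2 : ‖z0 - z1‖ ≤ 1 := by
      have : z0 - z1 = ((1 / (m + 1) : ℝ) : ℂ) * z0 := by
        rw [hz1]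
        have hm' : ((m : ℂ) + 1) ≠ 0 := by exact_mod_cast hm.ne'
        push_cast
        field_simp
        ring
      rw [this, norm_mul, Complex.norm_real, Real.norm_eq_abs, abs_of_nonneg (by positivity),
        one_div, inv_mul_le_iff₀ hm, mul_one]
      exact hz
    obtain ⟨h1, e1, a1, a2, a3, a4⟩ := ih z1 n1
    obtain ⟨h0, e0, b1, b2, b3, -⟩ := hR f hf z0
    -- the intermediate flat
    obtain ⟨P', hP'⟩ := C.few (n + n + 2 * ‖e1 0‖)
    obtain ⟨v1, hv1, hF1, -⟩ := C.next hX hO hH hfO hf hv hF a1 a2 le_rfl hP'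
    have hcomp : (fun z => (h0 * h1⁻¹) • (fun z => h1 • f (e1 z)) ((e1⁻¹ * e0) z)) =
        fun z => h0 • f (e0 z) := by
      funext z
      show (h0 * h1⁻¹) • h1 • f (e1 ((e1⁻¹ * e0) z)) = h0 • f (e0 z)
      rw [smul_smul, inv_mul_cancel_right, IsometryEquiv.mul_apply,
        IsometryEquiv.apply_inv_self]
    have hbd : ‖(e1⁻¹ * e0) 0‖ ≤ 2 * R + 1 := by
      rw [← dist_zero_right, ← e1.isometry.dist_eq, IsometryEquiv.mul_apply,
        IsometryEquiv.apply_inv_self, dist_eq_norm]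
      have : e0 0 - e1 0 = (e0 0 - z0) + (z0 - z1) - (e1 0 - z1) := by ring
      rw [this]
      have t1 := norm_sub_le ((e0 0 - z0) + (z0 - z1)) (e1 0 - z1)
      have t2 := norm_add_le (e0 0 - z0) (z0 - z1)
      linarith
    obtain ⟨v2, hv2, hF2, g', hg', p, hp1, hp2, hpe⟩ := C.next hX hO hH a1 a2 hv1 hF1
      (h := h0 * h1⁻¹) (e := e1⁻¹ * e0) (by rw [hcomp]; exact b1) (by rw [hcomp]; exact b2) hbd hP
    refine ⟨h0, e0, b1, b2, b3, ?_⟩
    set q := P.factorial with hq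
    obtain ⟨c, hc⟩ : p ∣ q := Nat.dvd_factorial (by omega) hp2
    have hk : (h0 * h1⁻¹)⁻¹ * g ^ q * (h0 * h1⁻¹) = g' ^ q := by
      rw [← conj_pow', hc, pow_mul, pow_mul, hpe]
    have hk2 : h0⁻¹ * g ^ q * h0 = h1⁻¹ * g' ^ q * h1 := by
      rw [← hk]; group
    rcases hg' with rfl | rfl
    · rw [hk2]; exact a4
    · have e3 : h1⁻¹ * g⁻¹ ^ q * h1 = (h1⁻¹ * g ^ q * h1)⁻¹ := by
        rw [inv_pow]; group
      rw [hk2, e3]
      rcases a4 with a4 | a4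
      · right; rw [a4]
      · left; rw [a4, inv_inv]

theorem Ctx.periodic [ProperSpace X] [IsIsometricSMul G X] [ProperlyDiscontinuousSMul G X]
    (hX : CN X) {x0 : X} {M : Set (ℂ → X)} (C : Ctx G x0 M) {O : Set (ℂ → X)}
    (hO : IsOpen O) {g : G} {n : ℝ} (hH : Has M O g n)
    {f : ℂ → X} (hfO : f ∈ O) (hf : f ∈ M) {v : ℂ} (hv : v ≠ 0) (hF : Full f g n 0 v) :
    ∃ (q : ℕ) (B : ℝ), 1 ≤ q ∧ ∀ z0 : ℂ, Full f (g ^ q) B z0 (q * v) := by
  have hfi : Isometry f := C.inv.isom f hf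
  obtain ⟨q, R, hq, hch⟩ := C.chain hX hO hH hfO hf hv hF
  refine ⟨q, n + 2 * R, hq, fun z0 => ?_⟩
  obtain ⟨m, hm⟩ := exists_nat_ge ‖z0‖
  obtain ⟨h, e, a1, a2, a3, a4⟩ := hch m z0 hm
  obtain ⟨P', hP'⟩ := C.few (n + n + 2 * ‖e 0‖)
  obtain ⟨v1, hv1, hF1, -⟩ := C.next hX hO hH hfO hf hv hF a1 a2 le_rfl hP'
  have hF2 := (hF1.back).pow q
  rw [conj_pow'] at hF2
  have hF3 := hF.pow q
  have hfin : Full f (g ^ q) n (e 0) (q * v) := by
    rcases a4 with a4 | a4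
    · rw [a4] at hF2
      rw [dir_unique hfi hF3.ray hF2.ray]
      exact hF2
    · rw [a4] at hF2
      have hF4 := hF2.inv
      rw [inv_inv] at hF4
      rw [dir_unique hfi hF3.ray hF4.ray]
      exact hF4
  intro i
  refine (hfin.move hfi z0 i).trans ?_
  rw [norm_sub_rev]
  linarith

theorem close_of_periodic [ProperSpace X] [IsIsometricSMul G X] [ProperlyDiscontinuousSMul G X]
    (hX : CN X) (hcc : ∃ K : Set X, IsCompact K ∧ ∀ x : X, ∃ g : G, g • x ∈ K)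
    {f : ℂ → X} (hf : Isometry f) {g : G} {B : ℝ} {v : ℂ} (hv : v ≠ 0)
    (hF : ∀ z0, Full f g B z0 v) : ∃ φ : Multiplicative (ℤ × ℤ) →* G, Function.Injective φ := by
  have hdd := t_dd t_strip (t_trans t_strip) (t_mid t_strip)
  have hcl := t_close hdd t_cen t_sel (t_bnd hdd t_cen t_park)
  have hnv : 0 < ‖v‖ := norm_pos_iff.2 hv
  have hnv' : (‖v‖ : ℂ) ≠ 0 := by exact_mod_cast hnv.ne'
  set u : ℂ := v / ‖v‖ with hu
  have hun : ‖u‖ = 1 := by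
    rw [hu, norm_div, Complex.norm_real, Real.norm_eq_abs, abs_norm, div_self hnv.ne']
  refine hcl X G (fun x y => f ((x + y * Complex.I) * u)) g ‖v‖ B ?_
  refine ⟨inferInstance, inferInstance, inferInstance, hcc, hX, ?_, hnv, ?_⟩
  · intro x y x' y'
    rw [hf.dist_eq, dist_eq_norm, ← sub_mul, norm_mul, hun, mul_one, ← Complex.normSq_eq_norm_sq,
      Complex.normSq_apply]
    simp
    ring
  · intro i x y
    have := hF ((x + y * Complex.I) * u) i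
    convert this using 3
    push_cast
    rw [hu]
    field_simp
    ring

end

end Pool.Agent.Q30.AP
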