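import Pool.Agent.Q30.AP.Basic

/-!
Convexity of the distance between lines, and `ℤ²` from two transverse directions.
-/

set_option autoImplicit false

universe u v

namespace Pool.Agent.Q30.AP

open Pool.Agent.W620.FL Pool.Agent.TH60.FP Set

section
variable {X : Type u} [MetricSpace X] {G : Type v} [Group G] [MulAction G X]

theorem conv (hX : CN X) {c c' : ℝ → X} (hc : Isometry c) (hc' : Isometry c') (x r : ℝ) :
    2 * dist (c x) (c' x) ≤ dist (c (x + r)) (c' (x + r)) + dist (c (x - r)) (c' (x - r)) := by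
  obtain ⟨m, hm⟩ := hX (c (x - r)) (c' (x + r))
  have d1 : ∀ {a : ℝ → X} (_ : Isometry a) (s t : ℝ), dist (a s) (a t) ^ 2 = (s - t) ^ 2 := by
    intro a ha s t
    rw [ha.dist_eq, Real.dist_eq, sq_abs]
  have a1 : dist (c x) m ≤ dist (c (x + r)) (c' (x + r)) / 2 := by
    have h1 := hm (c x)
    have h2 := Strip.line_cn hX hc (c' (x + r)) x r
    rw [d1 hc] at h1
    rw [dist_comm (c' (x + r)) (c x), dist_comm (c' (x + r)) (c (x - r)),
      dist_comm (c' (x + r)) (c (x + r))] at h2
    have h3 : dist (c x) m ^ 2 ≤ (dist (c (x + r)) (c' (x + r)) / 2) ^ 2 := by nlinarith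
    exact (sq_le_sq₀ dist_nonneg (by positivity)).1 h3
  have a2 : dist m (c' x) ≤ dist (c (x - r)) (c' (x - r)) / 2 := by
    have h1 := hm (c' x)
    have h2 := Strip.line_cn hX hc' (c (x - r)) x r
    rw [d1 hc'] at h1
    rw [dist_comm (c (x - r)) (c' x)] at h2
    have h3 : dist (c' x) m ^ 2 ≤ (dist (c (x - r)) (c' (x - r)) / 2) ^ 2 := by nlinarith
    rw [dist_comm]
    exact (sq_le_sq₀ dist_nonneg (by positivity)).1 h3
  have := dist_triangle (c x) m (c' x)
  linarith

variable [IsIsometricSMul G X]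

/-- by convexity the error of a full line is the error of the ray -/
theorem full_of_ray (hX : CN X) {f : ℂ → X} (hf : Isometry f) {g : G} {n N : ℝ} {a v : ℂ}
    (hv : v ≠ 0) (h1 : Ray f g n a v) (h2 : Full f g N a v) : Full f g n a v := by
  have hnv : 0 < ‖v‖ := norm_pos_iff.2 hv
  have hline : ∀ (p : ℂ), Isometry (fun t : ℝ => f (p + t * (v / ‖v‖))) := by
    intro p
    refine hf.comp (Isometry.of_dist_eq fun s t => ?_)
    rw [dist_eq_norm, Real.dist_eq]
    have : p + s * (v / ‖v‖) - (p + t * (v / ‖v‖)) = ((s - t : ℝ) : ℂ) * (v / ‖v‖) := by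
      push_cast; ring
    rw [this, norm_mul, norm_div, Complex.norm_real, Complex.norm_real, Real.norm_eq_abs,
      Real.norm_eq_abs, abs_norm, div_self hnv.ne', mul_one]
  have key : ∀ j : ℕ, dist (g ^ j • f (a - j * v)) (f a) ≤ n := by
    intro j
    set c : ℝ → X := fun t => g ^ j • f (a + t * (v / ‖v‖)) with hc
    set c' : ℝ → X := fun t => f ((a + j * v) + t * (v / ‖v‖)) with hc'
    have i1 : Isometry c := (isometry_smul X (g ^ j)).comp (hline a)
    have i2 : Isometry c' := hline _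
    have hvv : (v / (‖v‖ : ℂ)) * ‖v‖ = v := by
      rw [div_mul_cancel₀]
      exact_mod_cast hnv.ne'
    have hb : ∀ t, dist (c t) (c' t) ≤ 2 * N + 2 * ‖v‖ := by
      intro t
      set i : ℤ := ⌊t / ‖v‖⌋ with hi
      have hi1 : |t - i * ‖v‖| ≤ ‖v‖ := by
        have l1 := Int.floor_le (t / ‖v‖)
        have l2 := Int.lt_floor_add_one (t / ‖v‖)
        rw [← hi] at l1 l2
        rw [le_div_iff₀ hnv] at l1
        rw [div_lt_iff₀ hnv] at l2
        rw [abs_le]
        constructor <;> nlinarith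
      have n1 : ∀ p : ℂ, dist (f (p + t * (v / ‖v‖))) (f (p + i * v)) ≤ ‖v‖ := by
        intro p
        rw [hf.dist_eq, dist_eq_norm]
        have : p + t * (v / ‖v‖) - (p + i * v) = ((t - i * ‖v‖ : ℝ) : ℂ) * (v / ‖v‖) := by
          push_cast
          linear_combination ((i : ℂ)) * hvv
        rw [this, norm_mul, norm_div, Complex.norm_real, Complex.norm_real, Real.norm_eq_abs,
          Real.norm_eq_abs, abs_norm, div_self hnv.ne', mul_one]
        exact hi1
      have s1 : dist (c t) (g ^ j • f (a + i * v)) ≤ ‖v‖ := by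
        rw [hc, dist_smul]; exact n1 a
      have s2 : dist (g ^ j • f (a + i * v)) (g ^ j • g ^ i • f a) ≤ N := by
        rw [dist_smul, dist_comm]; exact h2 i
      have s3 : dist (g ^ j • g ^ i • f a) (f (a + j * v + i * v)) ≤ N := by
        have := h2 (j + i)
        rw [zpow_add, mul_smul, zpow_natCast] at this
        push_cast at this
        rw [add_mul, ← add_assoc] at this
        exact this
      have s4 : dist (f (a + j * v + i * v)) (c' t) ≤ ‖v‖ := by
        rw [dist_comm]; exact n1 _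
      have t1 := dist_triangle4 (c t) (g ^ j • f (a + i * v)) (g ^ j • g ^ i • f a)
        (f (a + j * v + i * v))
      have t2 := dist_triangle (c t) (f (a + j * v + i * v)) (c' t)
      linarith
    have hconst := Strip.const_of_bdd (fun t => dist (c t) (c' t)) _ hb
      (fun x r => conv hX i1 i2 x r) 0 (-(j * ‖v‖))
    have e1 : c (0 + -(j * ‖v‖)) = g ^ j • f (a - j * v) := by
      rw [hc]
      simp only
      congr 2
      push_cast
      linear_combination (-(j : ℂ)) * hvv
    have e2 : c' (0 + -(j * ‖v‖)) = f a := by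
      rw [hc']
      simp only
      congr 1
      push_cast
      linear_combination (-(j : ℂ)) * hvv
    have e3 : c 0 = g ^ j • f a := by rw [hc]; simp
    have e4 : c' 0 = f (a + j * v) := by rw [hc']; simp
    rw [e1, e2, e3, e4] at hconst
    rw [hconst]
    exact h1 j
  intro i
  rcases Int.eq_nat_or_neg i with ⟨j, rfl | rfl⟩
  · have := h1 j
    rw [zpow_natCast, Int.cast_natCast]
    exact this
  · have := key j
    rw [← dist_smul (g ^ j)⁻¹, smul_smul, inv_mul_cancel, one_smul] at this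
    rw [zpow_neg, zpow_natCast, dist_comm]
    push_cast
    rw [neg_mul, ← sub_eq_add_neg]
    exact this

theorem Full.of_pow {f : ℂ → X} (hf : Isometry f) {g : G} {n : ℝ} {a v : ℂ} {p : ℕ} (hp : 1 ≤ p)
    (h : Full f (g ^ p) n a (p * v)) : ∃ n', Full f g n' a v := by
  obtain ⟨C, hC⟩ := ((Finset.range p).image fun r : ℕ => dist (g ^ r • f a) (f (a + r * v))).exists_le
  have hC' : ∀ r < p, dist (g ^ r • f a) (f (a + r * v)) ≤ C := fun r hr =>
    hC _ (Finset.mem_image.2 ⟨r, Finset.mem_range.2 hr, rfl⟩)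
  refine ⟨C + p * ‖v‖ + n + p * ‖v‖, fun i => ?_⟩
  have hp0 : (p : ℤ) ≠ 0 := by omega
  obtain ⟨r, hr⟩ : ∃ r : ℕ, (r : ℤ) = i % p :=
    ⟨(i % p).toNat, Int.toNat_of_nonneg (Int.emod_nonneg _ hp0)⟩
  have hrp : r < p := by
    have := Int.emod_lt_of_pos i (show (0 : ℤ) < p by omega)
    omega
  set q : ℤ := i / p with hq
  have hi : i = p * q + r := by rw [hr]; exact (Int.mul_ediv_add_emod i p).symm
  have hrv : (r : ℝ) * ‖v‖ ≤ p * ‖v‖ := by
    apply mul_le_mul_of_nonneg_right _ (norm_nonneg v)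
    exact_mod_cast hrp.le
  have s1 : dist (g ^ i • f a) ((g ^ p) ^ q • f (a + r * v)) ≤ C := by
    have : g ^ i = (g ^ p) ^ q * g ^ r := by
      rw [hi, zpow_add, zpow_mul, zpow_natCast, zpow_natCast]
    rw [this, mul_smul, dist_smul]
    exact hC' r hrp
  have s2 : dist ((g ^ p) ^ q • f (a + r * v)) ((g ^ p) ^ q • f a) ≤ p * ‖v‖ := by
    rw [dist_smul, hf.dist_eq, dist_eq_norm, add_sub_cancel_left, norm_mul, Complex.norm_natCast]
    exact hrv
  have s3 := h q
  have s4 : dist (f (a + q * (p * v))) (f (a + i * v)) ≤ p * ‖v‖ := by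
    rw [hf.dist_eq, dist_eq_norm, hi]
    have : a + q * (p * v) - (a + ((p * q + r : ℤ) : ℂ) * v) = -(r * v) := by
      push_cast; ring
    rw [this, norm_neg, norm_mul, Complex.norm_natCast]
    exact hrv
  have t1 := dist_triangle4 (g ^ i • f a) ((g ^ p) ^ q • f (a + r * v)) ((g ^ p) ^ q • f a)
    (f (a + q * (p * v)))
  have t2 := dist_triangle (g ^ i • f a) (f (a + q * (p * v))) (f (a + i * v))
  linarith

theorem Full.pow {f : ℂ → X} {g : G} {n : ℝ} {a v : ℂ} (h : Full f g n a v) (p : ℕ) :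
    Full f (g ^ p) n a (p * v) := by
  intro i
  have := h (p * i)
  rw [zpow_mul, zpow_natCast] at this
  push_cast at this
  rw [show (i : ℂ) * (p * v) = p * i * v by ring]
  exact this

theorem Full.inv {f : ℂ → X} {g : G} {n : ℝ} {a v : ℂ} (h : Full f g n a v) :
    Full f g⁻¹ n a (-v) := by
  intro i
  have := h (-i)
  rw [zpow_neg] at this
  push_cast at this
  rw [inv_zpow, mul_neg, ← neg_mul]
  exact this

theorem Z2_of_transverse {f : ℂ → X} (hf : Isometry f) {g k : G} {n m : ℝ} {a b v w : ℂ}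
    (h1 : Full f g n a v) (h2 : Ray f k m b w) (hv : v ≠ 0) (hw : ∀ t : ℝ, w ≠ t * v)
    {r p : ℕ} (hr : 1 ≤ r) (hp : 1 ≤ p) (hc : Commute (g ^ r) (k ^ p)) :
    ∃ φ : Multiplicative (ℤ × ℤ) →* G, Function.Injective φ := by
  have key : ∀ (i : ℤ) (j : ℕ), (g ^ r) ^ i * (k ^ p) ^ j = 1 → i = 0 ∧ j = 0 := by
    intro i j hij
    have hz : ((p * j : ℕ) : ℂ) * w + ((r * i : ℤ) : ℂ) * v = 0 := by
      refine zero_of_growth (C := m + n + ‖b - a‖ + ‖b - a‖) fun N => ?_
      have e1 : k ^ (p * j * N) = g ^ (-(r * i * N) : ℤ) := by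
        have c1 : Commute ((g ^ r) ^ i) ((k ^ p) ^ j) := hc.zpow_left i |>.pow_right j
        have c2 := c1.mul_pow N
        rw [hij, one_pow] at c2
        have c3 : (k ^ p) ^ j = k ^ (p * j) := by rw [← pow_mul]
        have c4 : ((g ^ r) ^ i) ^ N = g ^ (r * i * N : ℤ) := by
          rw [← zpow_natCast g r, ← zpow_mul, ← zpow_natCast, ← zpow_mul]
        rw [c3, ← pow_mul, c4] at c2
        rw [zpow_neg]
        exact (inv_eq_of_mul_eq_one_right c2.symm).symm
      have r1 := h2 (p * j * N)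
      have r2 := h1 (-(r * i * N))
      rw [e1] at r1
      have r3 : dist (g ^ (-(r * i * N) : ℤ) • f b) (g ^ (-(r * i * N) : ℤ) • f a) = ‖b - a‖ := by
        rw [dist_smul, hf.dist_eq, dist_eq_norm]
      have t1 := dist_triangle4 (f (b + ((p * j * N : ℕ) : ℂ) * w))
        (g ^ (-(r * i * N) : ℤ) • f b) (g ^ (-(r * i * N) : ℤ) • f a)
        (f (a + ((-(r * i * N) : ℤ) : ℂ) * v))
      rw [dist_comm (f (b + ((p * j * N : ℕ) : ℂ) * w)) (g ^ (-(r * i * N) : ℤ) • f b)] at t1
      rw [hf.dist_eq, dist_eq_norm] at t1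
      have e2 : (N : ℂ) * (((p * j : ℕ) : ℂ) * w + ((r * i : ℤ) : ℂ) * v) =
          (b + ((p * j * N : ℕ) : ℂ) * w - (a + ((-(r * i * N) : ℤ) : ℂ) * v)) - (b - a) := by
        push_cast; ring
      rw [e2]
      refine (norm_sub_le _ _).trans ?_
      linarith
    by_cases hj : j = 0
    · subst hj
      refine ⟨?_, rfl⟩
      simp only [mul_zero, Nat.cast_zero, zero_mul, zero_add] at hz
      rcases mul_eq_zero.1 hz with h | h
      · have h' : (r : ℤ) * i = 0 := by exact_mod_cast h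
        rcases mul_eq_zero.1 h' with h'' | h''
        · omega
        · exact h''
      · exact absurd h hv
    · exfalso
      have hpj : ((p * j : ℕ) : ℂ) ≠ 0 := by
        have : p * j ≠ 0 := Nat.mul_ne_zero (by omega) hj
        exact_mod_cast this
      refine hw (-((r * i : ℤ) : ℝ) / ((p * j : ℕ) : ℝ)) ?_
      have : w = -(((r * i : ℤ) : ℂ) * v) / ((p * j : ℕ) : ℂ) := by
        rw [eq_div_iff hpj]
        linear_combination hz
      rw [this]
      push_cast
      ring
  refine ⟨Close.hom2 hc, (injective_iff_map_eq_one _).2 ?_⟩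
  intro x hx
  obtain ⟨⟨i, j⟩, rfl⟩ : ∃ b, Multiplicative.ofAdd b = x := ⟨Multiplicative.toAdd x, rfl⟩
  rw [Close.hom2_apply] at hx
  rcases Int.eq_nat_or_neg j with ⟨J, rfl | rfl⟩
  · rw [zpow_natCast] at hx
    obtain ⟨h3, h4⟩ := key i J hx
    subst h3 h4
    rfl
  · have hx' : (g ^ r) ^ (-i) * (k ^ p) ^ J = 1 := by
      have c1 : Commute ((g ^ r) ^ i) ((k ^ p) ^ (-(J : ℤ))) := hc.zpow_zpow i _
      have c2 := inv_eq_one.2 hx
      rw [c1.eq, mul_inv_rev, ← zpow_neg, ← zpow_neg, neg_neg, zpow_natCast] at c2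
      exact c2
    obtain ⟨h3, h4⟩ := key (-i) J hx'
    have h5 : i = 0 := by omega
    subst h5 h4
    rfl

end

end Pool.Agent.Q30.AP
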