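import Pool.Agent.Q30.AP.Chain

/-!
Aperiodic flats: the Cantor family.
-/

set_option autoImplicit false

universe u v

namespace Pool.Agent.Q30.AP

open Pool.Agent.W620.FL Pool.Agent.TH60.FP Set Filter Topology

section
variable {X : Type u} [MetricSpace X] {G : Type v} [Group G] [MulAction G X]

/-- If all flats of an open piece of a minimal family have a ray moved along itself by one element,
then the group contains `ℤ²`. -/
theorem Z2_of_rays [ProperSpace X] [IsIsometricSMul G X] [ProperlyDiscontinuousSMul G X]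
    (hX : CN X) (x0 : X) {K : Set X} (hK : IsCompact K)
    (hGK : ∀ x : X, ∃ g : G, g • x ∈ K) {M : Set (ℂ → X)}
    (hMmin : Minimal (fun T : Set (ℂ → X) => Inv G T ∧ T.Nonempty) M)
    {O : Set (ℂ → X)} (hO : IsOpen O) (hne : (O ∩ M).Nonempty) {g : G} {n : ℝ}
    (hH : Has M O g n) : ∃ φ : Multiplicative (ℤ × ℤ) →* G, Function.Injective φ := by
  by_contra hno
  have hM : Inv G M := hMmin.prop.1
  have C : Ctx G x0 M :=
    { inv := hM
      ret := fun O' hO' hne' => returns x0 hK hGK hMmin hO' hne'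
      few := fun D => Bnd.few ⟨K, hK, hGK⟩ D
      no := hno }
  obtain ⟨f, hfO, hfM⟩ := id hne
  obtain ⟨v, hv, hr⟩ := hH f hfO hfM
  have hn0 : 0 ≤ n := hr.nonneg
  -- a flat with a full line
  set T : ℕ → Set (ℂ → X) := fun j => {h | h ∈ M ∧ h 0 ∈ Metric.closedBall (f 0) n ∧
    ∀ i : ℤ, -(j : ℤ) ≤ i → dist (g ^ i • h 0) (h (i * v)) ≤ n + n} with hT
  have hTcl : ∀ j, IsClosed (T j) := by
    intro j
    have hTj : T j = M ∩ (((fun h : ℂ → X => h 0) ⁻¹' Metric.closedBall (f 0) n) ∩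
        {h : ℂ → X | ∀ i : ℤ, -(j : ℤ) ≤ i → dist (g ^ i • h 0) (h (i * v)) ≤ n + n}) := rfl
    rw [hTj]
    refine hM.closed.inter ((Metric.isClosed_closedBall.preimage (continuous_apply (0 : ℂ))).inter ?_)
    have : {h : ℂ → X | ∀ i : ℤ, -(j : ℤ) ≤ i → dist (g ^ i • h 0) (h (i * v)) ≤ n + n} =
        ⋂ (i : ℤ), ⋂ (_ : -(j : ℤ) ≤ i), {h : ℂ → X | dist (g ^ i • h 0) (h (i * v)) ≤ n + n} := by
      ext h; simp
    show IsClosed {h : ℂ → X | ∀ i : ℤ, -(j : ℤ) ≤ i → dist (g ^ i • h 0) (h (i * v)) ≤ n + n}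
    rw [this]
    exact isClosed_iInter fun i => isClosed_iInter fun _ => isClosed_le
      (((isometry_smul X (g ^ i)).continuous.comp (continuous_apply (0 : ℂ))).dist
        (continuous_apply _)) continuous_const
  have hTne : ∀ j, (T j).Nonempty := by
    intro j
    have r0 : ∀ i : ℕ, dist (g ^ i • f 0) (f (i * v)) ≤ n := by
      intro i
      have := hr i
      rwa [zero_add] at this
    refine ⟨Sh f g v j, sh_mem hM hfM g v j, ?_, ?_⟩
    · rw [Metric.mem_closedBall]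
      unfold Sh
      rw [zero_add, ← dist_smul (g ^ j), smul_smul, mul_inv_cancel, one_smul, dist_comm]
      exact r0 j
    · intro i hi
      obtain ⟨l, hl⟩ : ∃ l : ℕ, (l : ℤ) = i + j := ⟨(i + j).toNat, Int.toNat_of_nonneg (by omega)⟩
      unfold Sh
      rw [zero_add, ← dist_smul (g ^ j)]
      have e1 : g ^ j • g ^ i • (g ^ j)⁻¹ • f (j * v) = g ^ i • f (j * v) := by
        rw [smul_smul, smul_smul]
        congr 1
        rw [← zpow_natCast]
        group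
      rw [e1, smul_smul, mul_inv_cancel, one_smul]
      have h1 := r0 j
      have h2 := r0 l
      rw [← dist_smul (g ^ i), smul_smul] at h1
      have e2 : g ^ l = g ^ i * g ^ j := by
        rw [← zpow_natCast, hl, zpow_add, zpow_natCast]
      have e3 : (l : ℂ) * v = i * v + j * v := by
        have : (l : ℂ) = i + j := by exact_mod_cast congrArg (Int.cast (R := ℂ)) hl
        rw [this]; ring
      rw [e2, e3] at h2
      have := dist_triangle (g ^ i • f (j * v)) ((g ^ i * g ^ j) • f 0) (f (i * v + j * v))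
      rw [dist_comm (g ^ i • f (j * v)) ((g ^ i * g ^ j) • f 0)] at this
      linarith
  have hT0 : IsCompact (T 0) := by
    refine (compact_PK x0 (isCompact_closedBall (f 0) n) hM).of_isClosed_subset (hTcl 0) ?_
    exact fun h hh => ⟨hh.1, hh.2.1⟩
  obtain ⟨f0, hf0⟩ := IsCompact.nonempty_iInter_of_sequence_nonempty_isCompact_isClosed T
    (fun j h hh => ⟨hh.1, hh.2.1, fun i hi => hh.2.2 i (by push_cast; omega)⟩) hTne hT0 hTcl
  rw [mem_iInter] at hf0
  have hf0M : f0 ∈ M := (hf0 0).1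
  have hF0 : Full f0 g (n + n) 0 v := by
    intro i
    rw [zero_add]
    exact (hf0 i.natAbs).2.2 i (by omega)
  -- a flat with a full line in the open piece
  obtain ⟨f1, h1O, h1M, v1, N1, hv1, hF1⟩ := C.full_in_open hO hne hH hf0M hv hF0
  obtain ⟨v2, hv2, hr2⟩ := hH f1 h1O h1M
  have h1i : Isometry f1 := hM.isom f1 h1M
  have h12 : v1 = v2 := dir_unique h1i hF1.ray hr2
  subst h12
  have hF2 : Full f1 g n 0 v1 := full_of_ray hX h1i hv1 hr2 hF1
  obtain ⟨q, B, hq, hB⟩ := C.periodic hX hO hH h1O h1M hv1 hF2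
  refine hno (close_of_periodic hX ⟨K, hK, hGK⟩ h1i (v := q * v1) ?_ hB)
  have : (q : ℂ) ≠ 0 := by exact_mod_cast (by omega : q ≠ 0)
  exact mul_ne_zero this hv1

/-- the flats with a ray at `0` moved along itself by `g` with speed in a compact interval -/
def Bad (W : Set (ℂ → X)) (g : G) (n : ℕ) : Set W :=
  {w | ∃ v : ℂ, (1 / (n + 1) : ℝ) ≤ ‖v‖ ∧ ‖v‖ ≤ n + 1 ∧ Ray (w : ℂ → X) g n 0 v}

theorem bad_closed [IsIsometricSMul G X] {W : Set (ℂ → X)} (hWc : CompactSpace W)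
    (hWi : ∀ w ∈ W, Isometry w) (g : G) (n : ℕ) : IsClosed (Bad W g n) := by
  set Q : Set (W × ℂ) := {q | ((1 / (n + 1) : ℝ) ≤ ‖q.2‖ ∧ ‖q.2‖ ≤ n + 1) ∧
    ∀ i : ℕ, dist (g ^ i • (q.1 : ℂ → X) 0) ((q.1 : ℂ → X) (0 + i * q.2)) ≤ n} with hQ
  have hcont1 : Continuous (fun q : W × ℂ => (q.1 : ℂ → X) 0) :=
    (continuous_apply (0 : ℂ)).comp (continuous_subtype_val.comp continuous_fst)
  have hcont : ∀ i : ℕ, Continuous (fun q : W × ℂ => (q.1 : ℂ → X) (0 + i * q.2)) := by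
    intro i
    rw [continuous_iff_continuousAt]
    intro q0
    rw [ContinuousAt, tendsto_iff_dist_tendsto_zero]
    have h1 : Tendsto (fun q : W × ℂ => dist (0 + i * q.2) (0 + i * q0.2) +
        dist ((q.1 : ℂ → X) (0 + i * q0.2)) ((q0.1 : ℂ → X) (0 + i * q0.2))) (𝓝 q0) (𝓝 0) := by
      have c1 : Continuous (fun q : W × ℂ => (q.1 : ℂ → X) (0 + i * q0.2)) :=
        (continuous_apply (0 + i * q0.2 : ℂ)).comp (continuous_subtype_val.comp continuous_fst)
      have h2 : Continuous (fun q : W × ℂ => dist (0 + i * q.2) (0 + i * q0.2) +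
          dist ((q.1 : ℂ → X) (0 + i * q0.2)) ((q0.1 : ℂ → X) (0 + i * q0.2))) :=
        ((continuous_const.add (continuous_const.mul continuous_snd)).dist continuous_const).add
          (c1.dist continuous_const)
      have h3 := h2.tendsto q0
      simpa using h3
    refine squeeze_zero (fun _ => dist_nonneg) (fun q => ?_) h1
    have h4 := dist_triangle ((q.1 : ℂ → X) (0 + i * q.2)) ((q.1 : ℂ → X) (0 + i * q0.2))
      ((q0.1 : ℂ → X) (0 + i * q0.2))
    rw [(hWi _ q.1.2).dist_eq] at h4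
    exact h4
  have hQcl : IsClosed Q := by
    refine IsClosed.inter ((isClosed_le continuous_const continuous_snd.norm).inter
      (isClosed_le continuous_snd.norm continuous_const)) ?_
    have : {q : W × ℂ | ∀ i : ℕ,
        dist (g ^ i • (q.1 : ℂ → X) 0) ((q.1 : ℂ → X) (0 + i * q.2)) ≤ n} =
        ⋂ i : ℕ, {q : W × ℂ |
          dist (g ^ i • (q.1 : ℂ → X) 0) ((q.1 : ℂ → X) (0 + i * q.2)) ≤ n} := by
      ext q; simp
    show IsClosed {q : W × ℂ | ∀ i : ℕ,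
        dist (g ^ i • (q.1 : ℂ → X) 0) ((q.1 : ℂ → X) (0 + i * q.2)) ≤ n}
    rw [this]
    exact isClosed_iInter fun i => isClosed_le
      (((isometry_smul X (g ^ i)).continuous.comp hcont1).dist (hcont i)) continuous_const
  have hQc : IsCompact Q := by
    refine ((isCompact_univ (X := W)).prod (isCompact_closedBall (0 : ℂ) (n + 1))).of_isClosed_subset
      hQcl ?_
    rintro ⟨w, v⟩ ⟨⟨-, h2⟩, -⟩
    refine ⟨mem_univ _, ?_⟩
    rw [Metric.mem_closedBall, dist_zero_right]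
    exact h2
  have h1 := (hQc.image continuous_fst).isClosed
  convert h1 using 1
  ext w
  constructor
  · rintro ⟨v, h2, h3, h4⟩
    exact ⟨(w, v), ⟨⟨h2, h3⟩, h4⟩, rfl⟩
  · rintro ⟨⟨w', v⟩, ⟨⟨h2, h3⟩, h4⟩, rfl⟩
    exact ⟨v, h2, h3, h4⟩

/-- finitely many closed sets without interior can be avoided -/
theorem avoid {W : Type*} [TopologicalSpace W] {ι : Type*} [DecidableEq ι] (s : Finset ι)
    (A : ι → Set W) (hA : ∀ i ∈ s, IsClosed (A i)) {V0 : Set W}
    (h : ∀ i ∈ s, ∀ U : Set W, IsOpen U → U.Nonempty → U ⊆ V0 → ∃ u ∈ U, u ∉ A i) :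
    ∀ U : Set W, IsOpen U → U.Nonempty → U ⊆ V0 →
      ∃ U' : Set W, IsOpen U' ∧ U'.Nonempty ∧ U' ⊆ U ∧ ∀ i ∈ s, ∀ u ∈ U', u ∉ A i := by
  induction s using Finset.induction_on with
  | empty => exact fun U hU hn _ => ⟨U, hU, hn, Subset.rfl, by simp⟩
  | insert i s hi ih =>
    intro U hU hn h0
    obtain ⟨U', h1, h2, h3, h4⟩ := ih (fun j hj => hA j (Finset.mem_insert_of_mem hj))
      (fun j hj => h j (Finset.mem_insert_of_mem hj)) U hU hn h0
    obtain ⟨u, hu, hui⟩ := h i (Finset.mem_insert_self _ _) U' h1 h2 (h3.trans h0)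
    refine ⟨U' ∩ (A i)ᶜ, h1.inter (hA i (Finset.mem_insert_self _ _)).isOpen_compl, ⟨u, hu, hui⟩,
      inter_subset_left.trans h3, ?_⟩
    intro j hj w hw
    rcases Finset.mem_insert.1 hj with rfl | hj
    · exact hw.2
    · exact h4 j hj w hw.1

theorem aperiodic_complex [ProperSpace X] [IsIsometricSMul G X] [ProperlyDiscontinuousSMul G X]
    (hX : CN X) (x0 : X) {K : Set X} (hK : IsCompact K)
    (hGK : ∀ x : X, ∃ g : G, g • x ∈ K) {S : Set (ℂ → X)} (hS : Inv G S) (hne : S.Nonempty) :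
    (∃ φ : Multiplicative (ℤ × ℤ) →* G, Function.Injective φ) ∨
    ∃ (Φ : (ℕ → Bool) → (ℂ → X)) (R : ℝ), (∀ x, Φ x ∈ S) ∧ (∀ x, dist (Φ x 0) x0 ≤ R) ∧
      (∀ x y, x ≠ y → ∀ g : G,
        ¬ ∃ (e : ℂ ≃ᵢ ℂ) (n : ℝ), ∀ z, dist (Φ x z) (g • Φ y (e z)) ≤ n) ∧
      ∀ x, ∀ g : G, ∀ (n : ℝ) (a v : ℂ), v ≠ 0 → ¬ Ray (Φ x) g n a v := by
  classical
  obtain ⟨M, hMS, hMmin⟩ := exists_minimal x0 hK hGK hS hne
  have hM : Inv G M := hMmin.prop.1
  have hMne : M.Nonempty := hMmin.prop.2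
  by_cases hZ : ∃ φ : Multiplicative (ℤ × ℤ) →* G, Function.Injective φ
  · exact Or.inl hZ
  right
  obtain ⟨R, hR⟩ := hK.isBounded.subset_closedBall x0
  set W : Set (ℂ → X) := {h | h ∈ M ∧ h 0 ∈ Metric.closedBall x0 (R + 1)} with hW
  have hWc : IsCompact W := compact_PK x0 (isCompact_closedBall _ _) hM
  have hWs : CompactSpace W := isCompact_iff_compactSpace.1 hWc
  set V0 : Set W := {w : W | (w : ℂ → X) 0 ∈ Metric.ball x0 (R + 1)} with hV0
  have hop : IsOpen V0 :=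
    Metric.isOpen_ball.preimage ((continuous_apply (0 : ℂ)).comp continuous_subtype_val)
  have hopne : V0.Nonempty := by
    obtain ⟨h, hh⟩ := hMne
    obtain ⟨g, hg⟩ := hGK (h 0)
    have h1 := hR hg
    have h2 : g • h 0 ∈ Metric.ball x0 (R + 1) := by
      rw [Metric.mem_ball]; rw [Metric.mem_closedBall] at h1; linarith
    exact ⟨⟨fun p => g • h p, hM.smul h hh g, Metric.ball_subset_closedBall h2⟩, h2⟩
  have hfin : ∀ ρ : ℝ, {g : G | dist (g • x0) x0 ≤ ρ}.Finite := fun ρ => fin_set x0 x0 ρ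
  -- open pieces as open sets of flats
  have hlift : ∀ U : Set W, IsOpen U → U ⊆ V0 → ∃ O : Set (ℂ → X), IsOpen O ∧
      (∀ f, f ∈ O → f ∈ M → ∃ h : f ∈ W, (⟨f, h⟩ : W) ∈ U) ∧ ∀ w ∈ U, (w : ℂ → X) ∈ O := by
    intro U hU hU0
    rw [isOpen_induced_iff] at hU
    obtain ⟨U', hU'o, hU'⟩ := hU
    refine ⟨U' ∩ {h | h 0 ∈ Metric.ball x0 (R + 1)},
      hU'o.inter (Metric.isOpen_ball.preimage (continuous_apply (0 : ℂ))), ?_, ?_⟩
    · rintro f ⟨hf1, hf2⟩ hfM
      refine ⟨⟨hfM, Metric.ball_subset_closedBall hf2⟩, ?_⟩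
      rw [← hU']; exact hf1
    · intro w hw
      refine ⟨?_, hU0 hw⟩
      have : w ∈ Subtype.val ⁻¹' U' := by rw [hU']; exact hw
      exact this
  -- the bad sets have no interior
  have hbad : ∀ (g : G) (n : ℕ) (U : Set W), IsOpen U → U.Nonempty → U ⊆ V0 →
      ∃ u ∈ U, u ∉ Bad W g n := by
    intro g n U hU hUn hU0
    by_contra hcon
    push Not at hcon
    obtain ⟨O, hO, h1, h2⟩ := hlift U hU hU0
    obtain ⟨u, hu⟩ := hUn
    refine hZ (Z2_of_rays hX x0 hK hGK hMmin hO ⟨u, h2 u hu, u.2.1⟩ (g := g) (n := n) ?_)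
    intro f hfO hfM
    obtain ⟨hfW, hfU⟩ := h1 f hfO hfM
    obtain ⟨v, hv1, -, hv3⟩ := hcon _ hfU
    refine ⟨v, ?_, hv3⟩
    intro hv0
    rw [hv0, norm_zero] at hv1
    have : (0 : ℝ) < 1 / (n + 1) := by positivity
    linarith
  obtain ⟨Φ, hΦ⟩ := mycielski
    (fun n : ℕ => {q : W × W | (∃ g : G, dist (g • x0) x0 ≤ n ∧ ∃ e : ℂ ≃ᵢ ℂ,
      ∀ z, dist ((q.1 : ℂ → X) z) (g • (q.2 : ℂ → X) (e z)) ≤ n) ∨
      ∃ g : G, dist (g • x0) x0 ≤ n ∧ (q.1 ∈ Bad W g n)})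
    (fun n => by
      have h1 : {q : W × W | (∃ g : G, dist (g • x0) x0 ≤ n ∧ ∃ e : ℂ ≃ᵢ ℂ,
          ∀ z, dist ((q.1 : ℂ → X) z) (g • (q.2 : ℂ → X) (e z)) ≤ n) ∨
          ∃ g : G, dist (g • x0) x0 ≤ n ∧ (q.1 ∈ Bad W g n)} =
          (⋃ g ∈ {g : G | dist (g • x0) x0 ≤ (n : ℝ)}, {q : W × W | ∃ e : ℂ ≃ᵢ ℂ,
          ∀ z, dist ((q.1 : ℂ → X) z) (g • (q.2 : ℂ → X) (e z)) ≤ n}) ∪
          ⋃ g ∈ {g : G | dist (g • x0) x0 ≤ (n : ℝ)}, {q : W × W | q.1 ∈ Bad W g n} := by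
        ext q; simp
      rw [h1]
      exact ((hfin n).isClosed_biUnion fun g _ =>
        rel_closed hWc (fun w hw => hM.isom w hw.1) (fun w hw => hw.2) g n).union
        ((hfin n).isClosed_biUnion fun g _ =>
          (bad_closed hWs (fun w hw => hM.isom w hw.1) g n).preimage continuous_fst)) hop hopne
    (by
      intro n U1 V hU1 hV hU1n hVn hU10 hV0'
      obtain ⟨U, hU, hUn, hUU1, hUbad⟩ := avoid (hfin n).toFinset (fun g => Bad W g n)
        (fun g _ => bad_closed hWs (fun w hw => hM.isom w hw.1) g n)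
        (fun g _ => hbad g n) U1 hU1 hU1n hU10
      have hU0 : U ⊆ V0 := hUU1.trans hU10
      have hne2 : ∃ u ∈ U, ∃ v ∈ V, ¬ ∃ g : G, dist (g • x0) x0 ≤ n ∧ ∃ e : ℂ ≃ᵢ ℂ,
          ∀ z, dist ((u : ℂ → X) z) (g • (v : ℂ → X) (e z)) ≤ n := by
        by_contra hcon
        push Not at hcon
        obtain ⟨u0, hu0⟩ := hUn
        obtain ⟨v0, hv0⟩ := hVn
        obtain ⟨O, hO, h1, h2⟩ := hlift U hU hU0
        obtain ⟨g0, hg0, e0, he0⟩ := hcon u0 hu0 v0 hv0
        apply hZ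
        refine Z2_of_open x0 hK hGK hMmin (f := u0) u0.2.1 hO (h2 u0 hu0) (n := n + n)
          (L := (fun g : G => g0 * g⁻¹) '' {g : G | dist (g • x0) x0 ≤ (n : ℝ)})
          ((hfin n).image _) ?_
        rintro h ⟨hhO, hhM⟩
        obtain ⟨hhW, hhU⟩ := h1 h hhO hhM
        obtain ⟨g1, hg1, e1, he1⟩ := hcon _ hhU v0 hv0
        refine ⟨g0 * g1⁻¹, ⟨g1, hg1, rfl⟩, e0⁻¹ * e1, fun z => ?_⟩
        have h2 := he1 z
        have h3 := he0 ((e0⁻¹ * e1) z)
        rw [IsometryEquiv.mul_apply, IsometryEquiv.apply_inv_self] at h3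
        rw [IsometryEquiv.mul_apply]
        simp only at h2
        rw [← dist_smul (g0 * g1⁻¹)] at h2
        have h6 : (g0 * g1⁻¹) • g1 • (v0 : ℂ → X) (e1 z) = g0 • (v0 : ℂ → X) (e1 z) := by
          rw [smul_smul, inv_mul_cancel_right]
        rw [h6] at h2
        have h4 := dist_triangle ((g0 * g1⁻¹) • h z) (g0 • (v0 : ℂ → X) (e1 z))
          ((u0 : ℂ → X) (e0⁻¹ (e1 z)))
        rw [dist_comm (g0 • (v0 : ℂ → X) (e1 z))] at h4
        linarith
      obtain ⟨u, hu, v, hv, huv⟩ := hne2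
      refine ⟨u, hUU1 hu, v, hv, ?_⟩
      rintro (h | ⟨g, hg, hb⟩)
      · exact huv h
      · exact hUbad g ((hfin n).mem_toFinset.2 hg) u hu hb)
  refine ⟨fun x => Φ x, R + 1, fun x => hMS (Φ x).2.1, fun x => (Φ x).2.2,
    fun x y hxy g => ?_, fun x g n a v hv hr => ?_⟩
  · rintro ⟨e, n, hn⟩
    obtain ⟨N, hN⟩ := hΦ x y hxy
    obtain ⟨m, hm⟩ := exists_nat_ge n
    obtain ⟨k, hk⟩ := exists_nat_ge (dist (g • x0) x0)
    refine hN (max N (max m k)) (le_max_left _ _) (Or.inl ⟨g, hk.trans ?_, e, fun z =>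
      (hn z).trans (hm.trans ?_)⟩)
    · exact_mod_cast (le_max_right m k).trans (le_max_right N _)
    · exact_mod_cast (le_max_left m k).trans (le_max_right N _)
  · obtain ⟨y, hxy'⟩ := exists_ne x
    have hxy : x ≠ y := hxy'.symm
    obtain ⟨N, hN⟩ := hΦ x y hxy
    have hr0 := hr.move (hM.isom _ (Φ x).2.1) 0
    obtain ⟨m, hm⟩ := exists_nat_ge (n + 2 * ‖0 - a‖)
    obtain ⟨k, hk⟩ := exists_nat_ge (dist (g • x0) x0)
    obtain ⟨l, hl⟩ := exists_nat_ge (‖v‖)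
    obtain ⟨r, hr'⟩ := exists_nat_ge (1 / ‖v‖)
    set T : ℕ := max N (max (max m k) (max l r)) with hT
    have e1 : m ≤ T := by omega
    have e2 : k ≤ T := by omega
    have e3 : l ≤ T := by omega
    have e4 : r ≤ T := by omega
    have hv' : 0 < ‖v‖ := norm_pos_iff.2 hv
    refine hN T (le_max_left _ _) (Or.inr ⟨g, hk.trans (by exact_mod_cast e2), v, ?_, ?_,
      hr0.mono (hm.trans (by exact_mod_cast e1))⟩)
    · have h1 : (1 : ℝ) / ‖v‖ ≤ T + 1 := by
        have : (r : ℝ) ≤ T := by exact_mod_cast e4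
        linarith
      rw [div_le_iff₀ (by positivity)]
      rw [div_le_iff₀ hv'] at h1
      linarith [h1]
    · have : (l : ℝ) ≤ T := by exact_mod_cast e3
      linarith

end

end Pool.Agent.Q30.AP
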