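import Pool.Agent.Q30.AP.Conv
import Pool.Agent.TH60.FP.Bnd

/-!
Returns of flats of a minimal family to an open set, and rays moved along themselves by one element.
-/

set_option autoImplicit false

universe u v

namespace Pool.Agent.Q30.AP

open Pool.Agent.W620.FL Pool.Agent.TH60.FP Set

section
variable {X : Type u} [MetricSpace X] {G : Type v} [Group G] [MulAction G X]

theorem returns [ProperSpace X] [IsIsometricSMul G X]
    (x0 : X) {K : Set X} (hK : IsCompact K)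
    (hGK : ∀ x : X, ∃ g : G, g • x ∈ K) {M : Set (ℂ → X)}
    (hMmin : Minimal (fun T : Set (ℂ → X) => Inv G T ∧ T.Nonempty) M)
    {O : Set (ℂ → X)} (hO : IsOpen O) (hne : (O ∩ M).Nonempty) :
    ∃ R : ℝ, 0 ≤ R ∧ ∀ f ∈ M, ∀ z0 : ℂ, ∃ (h : G) (e : ℂ ≃ᵢ ℂ),
      (fun z => h • f (e z)) ∈ O ∧ (fun z => h • f (e z)) ∈ M ∧ ‖e 0 - z0‖ ≤ R ∧
        dist (h • f z0) x0 ≤ R := by
  obtain ⟨f, hfO, hfM⟩ := hne
  have hM : Inv G M := hMmin.prop.1
  have hcontg : ∀ (g : G) (e : ℂ ≃ᵢ ℂ),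
      Continuous (fun (h : ℂ → X) (z : ℂ) => g • h (e z)) := fun g e =>
    continuous_pi fun z => (isometry_smul X g).continuous.comp (continuous_apply (e z))
  have hall : ∀ h ∈ M, ∃ (g : G) (e : ℂ ≃ᵢ ℂ), (fun z => g • h (e z)) ∈ O := by
    by_contra hcon
    set Z : Set (ℂ → X) := {h | h ∈ M ∧ ∀ (g : G) (e : ℂ ≃ᵢ ℂ), (fun z => g • h (e z)) ∉ O}
      with hZ
    have hZinv : Inv G Z := by
      refine ⟨?_, fun h hh => hM.isom h hh.1, ?_, ?_⟩
      · refine hM.closed.inter ?_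
        have : {h : ℂ → X | ∀ (g : G) (e : ℂ ≃ᵢ ℂ), (fun z => g • h (e z)) ∉ O} =
            ⋂ (g : G), ⋂ (e : ℂ ≃ᵢ ℂ), {h : ℂ → X | (fun z => g • h (e z)) ∈ Oᶜ} := by
          ext h; simp
        show IsClosed {h : ℂ → X | ∀ (g : G) (e : ℂ ≃ᵢ ℂ), (fun z => g • h (e z)) ∉ O}
        rw [this]
        exact isClosed_iInter fun g => isClosed_iInter fun e =>
          hO.isClosed_compl.preimage (hcontg g e)
      · intro h hh g
        refine ⟨hM.smul h hh.1 g, fun g' e => ?_⟩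
        have := hh.2 (g' * g) e
        simpa only [mul_smul] using this
      · intro h hh e
        refine ⟨hM.comp h hh.1 e, fun g' e' => ?_⟩
        have := hh.2 g' (e * e')
        simpa only [IsometryEquiv.mul_apply] using this
    have hZne : Z.Nonempty := by
      simp only [not_forall] at hcon
      obtain ⟨h, hh, hcon⟩ := hcon
      exact ⟨h, hh, fun g e hge => hcon ⟨g, e, hge⟩⟩
    have hMZ : M ⊆ Z := hMmin.le_of_le ⟨hZinv, hZne⟩ (fun h hh => hh.1)
    have := (hMZ hfM).2 1 1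
    apply this
    simpa using hfO
  have hcpt := compact_PK x0 hK hM
  obtain ⟨T, hT⟩ := hcpt.elim_finite_subcover
    (fun q : G × (ℂ ≃ᵢ ℂ) => {h : ℂ → X | (fun z => q.1 • h (q.2 z)) ∈ O})
    (fun q => hO.preimage (hcontg q.1 q.2))
    (by
      rintro h ⟨hh, -⟩
      obtain ⟨g, e, hge⟩ := hall h hh
      exact mem_iUnion.2 ⟨(g, e), hge⟩)
  obtain ⟨R0, hR0⟩ := hK.isBounded.subset_closedBall x0
  obtain ⟨B, hB⟩ := (T.image (fun q : G × (ℂ ≃ᵢ ℂ) =>
    max (dist (q.1 • x0) x0) ‖q.2 0‖)).exists_le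
  have hB1 : ∀ q ∈ T, dist (q.1 • x0) x0 ≤ B := fun q hq =>
    (le_max_left _ _).trans (hB _ (Finset.mem_image_of_mem _ hq))
  have hB2 : ∀ q ∈ T, ‖q.2 0‖ ≤ B := fun q hq =>
    (le_max_right _ _).trans (hB _ (Finset.mem_image_of_mem _ hq))
  refine ⟨max B (R0 + B) ⊔ 0, le_max_right _ _, fun f hf z0 => ?_⟩
  obtain ⟨g0, hg0⟩ := hGK (f z0)
  obtain ⟨τ, hτ⟩ := toEquiv (isometry_add_right z0 : Isometry (fun z : ℂ => z + z0))
  have h1 : (fun z => g0 • f (τ z)) ∈ M := hM.comp _ (hM.smul f hf g0) τ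
  have h2 : (fun z => g0 • f (τ z)) ∈ {h : ℂ → X | h ∈ M ∧ h 0 ∈ K} := by
    refine ⟨h1, ?_⟩
    simp only [hτ, zero_add]
    exact hg0
  obtain ⟨q, hq, hqO⟩ := mem_iUnion₂.1 (hT h2)
  have e1 : (fun z => (q.1 * g0) • f ((τ * q.2) z)) = fun z => q.1 • g0 • f (τ (q.2 z)) := by
    funext z
    rw [mul_smul, IsometryEquiv.mul_apply]
  refine ⟨q.1 * g0, τ * q.2, ?_, ?_, ?_, ?_⟩
  · rw [e1]; exact hqO
  · rw [e1]; exact hM.comp _ (hM.smul _ h1 q.1) q.2
  · rw [IsometryEquiv.mul_apply, hτ, add_sub_cancel_right]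
    exact (hB2 q hq).trans ((le_max_left _ _).trans (le_max_left _ _))
  · rw [mul_smul]
    have h8 := hR0 hg0
    rw [Metric.mem_closedBall, ← dist_smul q.1] at h8
    have := dist_triangle (q.1 • g0 • f z0) (q.1 • x0) x0
    have := hB1 q hq
    exact (by linarith : dist (q.1 • g0 • f z0) x0 ≤ R0 + B).trans
      ((le_max_right _ _).trans (le_max_left _ _))

/-- at most two complex numbers have given distances from `0` and from `v ≠ 0` -/
theorem two_points {v w w' : ℂ} (hv : v ≠ 0) (h1 : ‖w‖ = ‖w'‖) (h2 : ‖w - v‖ = ‖w' - v‖) :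
    w = w' ∨ w = v * (starRingEnd ℂ (w' / v)) := by
  have hvn : ‖v‖ ≠ 0 := norm_ne_zero_iff.2 hv
  have k1 : Complex.normSq (w / v) = Complex.normSq (w' / v) := by
    rw [Complex.normSq_eq_norm_sq, Complex.normSq_eq_norm_sq, norm_div, norm_div, h1]
  have k2 : Complex.normSq (w / v - 1) = Complex.normSq (w' / v - 1) := by
    have e : ∀ x : ℂ, x / v - 1 = (x - v) / v := fun x => by field_simp
    rw [Complex.normSq_eq_norm_sq, Complex.normSq_eq_norm_sq, e, e, norm_div, norm_div, h2]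
  rw [Complex.normSq_apply, Complex.normSq_apply] at k1 k2
  simp only [Complex.sub_re, Complex.sub_im, Complex.one_re, Complex.one_im, sub_zero] at k2
  have k3 : (w / v).re = (w' / v).re := by nlinarith
  have k4 : ((w / v).im - (w' / v).im) * ((w / v).im + (w' / v).im) = 0 := by
    rw [k3] at k1
    nlinarith
  rcases mul_eq_zero.1 k4 with h | h
  · left
    have : w / v = w' / v := Complex.ext k3 (sub_eq_zero.1 h)
    field_simp at this
    exact this
  · right
    have : w / v = starRingEnd ℂ (w' / v) := by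
      refine Complex.ext ?_ ?_
      · rw [Complex.conj_re]; exact k3
      · rw [Complex.conj_im]; linarith
    rw [← this, mul_div_cancel₀ _ hv]

/-- the flat `f` looked at from the point `j v`, moved back by `g ^ (-j)` -/
def Sh (f : ℂ → X) (g : G) (v : ℂ) (j : ℕ) : ℂ → X := fun z => (g ^ j)⁻¹ • f (z + j * v)

theorem sh_mem {M : Set (ℂ → X)} (hM : Inv G M) {f : ℂ → X} (hf : f ∈ M) (g : G) (v : ℂ) (j : ℕ) :
    Sh f g v j ∈ M := by
  obtain ⟨τ, hτ⟩ := toEquiv (isometry_add_right (j * v : ℂ) : Isometry (fun z : ℂ => z + j * v))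
  have := hM.comp _ (hM.smul f hf (g ^ j)⁻¹) τ
  simp only [hτ] at this
  exact this

variable [IsIsometricSMul G X]

theorem sh_full {f : ℂ → X} {g : G} {n : ℝ} {v : ℂ} (hf : Full f g n 0 v) (j : ℕ) :
    Full (Sh f g v j) g (n + n) 0 v := by
  intro i
  unfold Sh
  rw [zero_add, zero_add, ← dist_smul (g ^ j)]
  have e1 : g ^ j • g ^ i • (g ^ j)⁻¹ • f (j * v) = g ^ i • f (j * v) := by
    rw [smul_smul, smul_smul]
    congr 1
    rw [← zpow_natCast]
    group
  rw [e1, smul_smul, mul_inv_cancel, one_smul]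
  have h1 := hf j
  have h2 := hf (i + j)
  rw [zero_add, zpow_natCast, Int.cast_natCast, ← dist_smul (g ^ i), smul_smul] at h1
  rw [zero_add, zpow_add, zpow_natCast] at h2
  push_cast at h2
  rw [add_mul] at h2
  have := dist_triangle (g ^ i • f (j * v)) ((g ^ i * g ^ j) • f 0) (f (i * v + j * v))
  rw [dist_comm (g ^ i • f (j * v)) ((g ^ i * g ^ j) • f 0)] at this
  linarith

theorem sh_zero {f : ℂ → X} {g : G} {n : ℝ} {v : ℂ} (hf : Full f g n 0 v) (j : ℕ) :
    dist (Sh f g v j 0) (f 0) ≤ n := by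
  unfold Sh
  have h1 := hf j
  rw [zero_add, zpow_natCast, Int.cast_natCast] at h1
  rw [zero_add, ← dist_smul (g ^ j), smul_smul, mul_inv_cancel, one_smul, dist_comm]
  exact h1

theorem Z2_of_inf [ProperSpace X] [ProperlyDiscontinuousSMul G X] {f : ℂ → X} (hf : Isometry f)
    {g k : G} {n m : ℝ} {v : ℂ} (hv : v ≠ 0) (h1 : Full f g n 0 v) {S : Set ℕ} (hS : S.Infinite)
    (hk : ∀ j ∈ S, ∃ a w : ℂ, (∀ t : ℝ, w ≠ t * v) ∧ Ray (Sh f g v j) k m a w) :
    ∃ φ : Multiplicative (ℤ × ℤ) →* G, Function.Injective φ := by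
  choose! a w hw hray using hk
  obtain ⟨j0, hj0⟩ := hS.nonempty
  have hiso : ∀ j, Isometry (Sh f g v j) := fun j =>
    (isometry_smul X _).comp (hf.comp (isometry_add_right _))
  have hfin : ({w j0, v * (starRingEnd ℂ (w j0 / v))} : Set ℂ).Finite :=
    (finite_singleton _).insert _
  have hmaps : MapsTo w S {w j0, v * (starRingEnd ℂ (w j0 / v))} := by
    intro j hj
    have s1 := speed (hiso j) (hiso j0) (hray j hj) (hray j0 hj0)
    have s2 := angle (hiso j) (hiso j0) (hray j hj) (sh_full h1 j).ray (hray j0 hj0)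
      (sh_full h1 j0).ray
    exact two_points hv s1 s2
  obtain ⟨j1, hj1, j2, hj2, hne, heq⟩ := hS.exists_ne_map_eq_of_mapsTo hmaps hfin
  have key : ∀ j1 ∈ S, ∀ j2 ∈ S, j1 < j2 → w j1 = w j2 →
      ∃ φ : Multiplicative (ℤ × ℤ) →* G, Function.Injective φ := by
    intro j1 hj1 j2 hj2 hlt heq
    have hd : ∀ j ∈ S, ∀ i : ℕ, dist (g ^ j • k ^ i • Sh f g v j (a j))
        (f (a j + j * v + i * w j)) ≤ m := by
      intro j hj i
      have h := hray j hj i
      rw [← dist_smul (g ^ j)] at h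
      have e1 : g ^ j • Sh f g v j (a j + i * w j) = f (a j + j * v + i * w j) := by
        unfold Sh
        rw [smul_smul, mul_inv_cancel, one_smul]
        congr 1; ring
      rw [e1] at h
      exact h
    obtain ⟨p, hp, hc⟩ := commute_pow (G := G) (y1 := Sh f g v j1 (a j1))
      (y2 := Sh f g v j2 (a j2)) (D := m + ‖(a j1 + j1 * v) - (a j2 + j2 * v)‖ + m)
      (c1 := g ^ j1) (c2 := g ^ j2) (k := k) (by
        intro i
        have r1 := hd j1 hj1 i
        have r2 := hd j2 hj2 i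
        have r3 : dist (f (a j1 + j1 * v + i * w j1)) (f (a j2 + j2 * v + i * w j2)) =
            ‖(a j1 + j1 * v) - (a j2 + j2 * v)‖ := by
          rw [hf.dist_eq, dist_eq_norm, heq]
          congr 1; ring
        have t := dist_triangle4 (g ^ j1 • k ^ i • Sh f g v j1 (a j1))
          (f (a j1 + j1 * v + i * w j1)) (f (a j2 + j2 * v + i * w j2))
          (g ^ j2 • k ^ i • Sh f g v j2 (a j2))
        rw [dist_comm (f (a j2 + j2 * v + i * w j2)) (g ^ j2 • k ^ i • Sh f g v j2 (a j2))] at t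
        linarith)
    have e2 : (g ^ j1)⁻¹ * g ^ j2 = g ^ (j2 - j1) := by
      rw [pow_sub g hlt.le]
      exact ((Commute.refl g).pow_pow j1 j2).inv_left.eq
    rw [e2] at hc
    exact Z2_of_transverse (hiso j1) (sh_full h1 j1) (hray j1 hj1) hv (hw j1 hj1)
      (by omega) hp hc
  rcases lt_or_gt_of_ne hne with h | h
  · exact key j1 hj1 j2 hj2 h heq
  · exact key j2 hj2 j1 hj1 h heq.symm

/-- a ray parallel to a line moved by `g` gives a common power -/
theorem power_rel {f : ℂ → X} (hf : Isometry f) {g k : G} {N n : ℝ} {a b v w : ℂ}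
    (hg : Full f g N a v) (hk : Ray f k n b w) (ht : w = v ∨ w = -v) {P : ℕ}
    (hP : ∀ (x : X) (S : Finset G), (∀ a' ∈ S, dist (a' • x) x ≤ n + N + 2 * ‖b - a‖) → S.card ≤ P) :
    ∃ g' : G, (g' = g ∨ g' = g⁻¹) ∧ Full f g' N a w ∧ ∃ p, 1 ≤ p ∧ p ≤ P ∧ k ^ p = g' ^ p := by
  obtain ⟨g', hg', hF⟩ : ∃ g' : G, (g' = g ∨ g' = g⁻¹) ∧ Full f g' N a w := by
    rcases ht with rfl | rfl
    · exact ⟨g, Or.inl rfl, hg⟩
    · exact ⟨g⁻¹, Or.inr rfl, hg.inv⟩
  refine ⟨g', hg', hF, ?_⟩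
  have hpq : dist (f b) (f a) = ‖b - a‖ := by rw [hf.dist_eq, dist_eq_norm]
  refine coincide (p := f b) (q := f a) (D := n + ‖b - a‖ + N) (P := P) ?_ ?_
  · intro x S hS
    refine hP x S fun a' ha' => (hS a' ha').trans ?_
    rw [hpq]; linarith
  · intro i
    have r1 := hk i
    have r2 := hF.ray i
    have r3 : dist (f (b + i * w)) (f (a + i * w)) = ‖b - a‖ := by
      rw [hf.dist_eq, dist_eq_norm]
      congr 1; ring
    have t := dist_triangle4 (k ^ i • f b) (f (b + i * w)) (f (a + i * w)) (g' ^ i • f a)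
    rw [dist_comm (f (a + i * w)) (g' ^ i • f a)] at t
    linarith

/-- then the ray is a full line -/
theorem full_of_power {f : ℂ → X} (hf : Isometry f) {g' k : G} {N : ℝ} {a b w : ℂ}
    (hF : Full f g' N a w) {p : ℕ} (hp : 1 ≤ p) (he : k ^ p = g' ^ p) : ∃ N', Full f k N' b w := by
  have h1 := (hF.pow p)
  rw [← he] at h1
  exact Full.of_pow hf hp (h1.move hf b)

end

end Pool.Agent.Q30.AP
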